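import Pool.Agent.Helper71.AGR.Fld
import Pool.Agent.Helper98.FR.Tr

/-! FIELDS of the corner of box data which come from a system (also after the replacement of the frame of the base
window): agreement, time, leak of the line, richness, direction. -/

set_option autoImplicit false

namespace Pool.Agent.Helper71.AGR

open Finset Filter Topology Pool.Agent.Helper69.RK Pool.Agent.Helper31.EC Pool.Agent.Helper31.EC.Sp
open Pool.Agent.Helper40.EL Pool.Agent.Helper99.EC Pool.Agent.Helper80.HCI Pool.Agent.Helper98.FR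
open Pool.Agent.Helper60.CS Pool.Agent.Helper82.TP Pool.Agent.Helper79.NF Pool.Agent.Helper31.NSB

noncomputable section

open QS Pool.Agent.Helper80.MX

variable {S : Sp}

/-- box data of a system, in the space of a label; the partitions are maximal labels of the windows -/
structure OfSys (s : Sys S 3) (l : Lab S) (B : BD l.sp) (D : LD B) : Prop where
  t : B.t = TR.cor (s.pull l.pj).t 0
  y : B.y = TR.cor (s.pull l.pj).P 0
  R : B.R = TR.cor (s.pull l.pj).P 1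
  z : B.z = TR.cor (s.pull l.pj).P 2
  x : D.x 0 = TR.cor (s.pull l.pj).x 0
  L : D.L = l.pj.map (s.xi 1)
  kap : ∀ i, IsKap s (B.q i) (wV l (B.V i))
  nest : ∀ i j, B.q i ≤ B.q j → ∀ k, B.V j k ≤ B.V i k

theorem ofSys_bx {s : Sys S 3} {q lam eta : ℕ → ℝ} {L : ℕ → Lab S} (b : Bx s q lam eta L) :
    OfSys s (b.M.lab 0) b.bd b.ld where
  t := rfl
  y := rfl
  R := rfl
  z := rfl
  x := rfl
  L := rfl
  kap := b.kap
  nest := b.nest

theorem OfSys.setc {s : Sys S 3} {l : Lab S} {B : BD l.sp} {D : LD B} (H : OfSys s l B D) {i0 : ℕ} {f : Fin 4 → TR l.sp}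
    {η : ℝ} {hf : ∀ a, Lt (B.V i0) (f a)} {hη : η ≤ B.eta i0}
    {hz : QS.mk B.z - (QS.mk (f 0) + QS.mk (f 1) * QS.mk B.t + QS.mk (f 2) * QS.mk B.y + QS.mk (f 3) * QS.mk B.R) ∈
      Id l.sp η}
    {hq : ∀ i, i ≠ i0 → B.q i0 < B.q i} : OfSys s l (B.setc i0 f η hf hη hz hq) D.setc where
  t := H.t
  y := H.y
  R := H.R
  z := H.z
  x := H.x
  L := H.L
  kap := H.kap
  nest := H.nest

theorem setoid_comap_mono {X Y : Type} (f : X → Y) {r r' : Setoid Y} (h : r ≤ r') :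
    Setoid.comap f r ≤ Setoid.comap f r' := fun _ _ g => h g

theorem kn0_pair {T : Sp} {α : ℕ → Type} (VA : ∀ k, (T.F k).Ω → α k) (V X Y : ∀ k, Setoid (T.F k).Ω)
    (h : Kn0 T (fun k => Setoid.ker (VA k)) X) (hY : ∀ k, Y k ≤ X k) (hV : ∀ k, Y k ≤ V k) :
    Kn0 T (fun k => Setoid.ker fun ω => (VA k ω, Quotient.mk (V k) ω)) Y := by
  refine ((h.mono_right hY).inf (Kn0_of_le (A := V) hV)).mono_left fun k w w' h => ?_
  exact Prod.ext h.1 (Quotient.sound h.2)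

namespace OfSys

variable {s : Sys S 3} {l : Lab S} {B : BD l.sp} {D : LD B} (H : OfSys s l B D)

include H in
theorem kt (i : ℕ) : Kg (B.V i) (l.pj.map (lB s)) B.t := by
  refine kg_of_le ?_
  rw [H.t]
  have h1 : TR.dg (TR.cor (s.pull l.pj).t 0) 1 = l.pj.map (TR.dg (TR.cor s.t 0) 1) := Pj.tr_dg l.pj (TR.cor s.t 0) 1
  rw [h1, T_eq]
  exact l.pj.map_mono le_sup_right

theorem kP (V : ∀ k, Setoid (l.sp.F k).Ω) (j : Fin 3) : Kg V (l.pj.map (lB s)) (TR.cor (s.pull l.pj).P j) := by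
  refine kg_of_le ?_
  have h1 : TR.dg (TR.cor (s.pull l.pj).P j) 1 = l.pj.map (TR.dg (TR.cor s.P j) 1) := Pj.tr_dg l.pj (TR.cor s.P j) 1
  rw [h1]
  exact l.pj.map_mono ((TR.cor_dg_le s.P j 1).trans le_sup_left)

variable (i0 : ℕ) {e : ℝ} (he : 0 < e) {ηn : ℝ} (hη : ηn ≤ B.eta i0) (ix : ℝ → ℕ)

include H in
theorem pf_le (h1 : B.lam i0 + e ≤ 1) (h2 : ηn + e ≤ 1) (i : Fin 4) :
    TR.dg (LD.pf (B := B) i0 e he ηn hη i) 1 ≤ chgL (B.V i0) e he (l.pj.map (lB s)) := by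
  refine AGR.pf_le B i0 he hη (H.kt i0) ?_ ?_ ?_ h1 h2 i
  · rw [H.y]
    exact kP _ 0
  · rw [H.R]
    exact kP _ 1
  · rw [H.z]
    exact kP _ 2

include H in
/-- the literal variable of the line is known to the line -/
theorem kn0_VA (h1 : B.lam i0 + e ≤ 1) (h2 : ηn + e ≤ 1) : Kn0 (B.Sj i0 e he)
    (fun k => Setoid.ker ((TR.vec (D.lf i0 e he ηn hη)).cellv 1 k))
    (chgI (B.V i0) e he (l.pj.mapI (Inf.sup (s.Ia 1) (s.Ix 1)))).1 := by
  apply kn0_vec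
  intro i
  have h3 : cl (chgI (B.V i0) e he (l.pj.mapI (Inf.sup (s.Ia 1) (s.Ix 1)))) = chgL (B.V i0) e he D.L := by
    have h4 : s.xi 1 = cl (Inf.sup (s.Ia 1) (s.Ix 1)) := by
      rw [cl_sup, s.cl_Ia, s.cl_Ix]
      rfl
    rw [H.L, h4]
    rfl
  rw [h3]
  exact lf_le i0 he hη D h1 h2 i

include H in
/-- the literal variable of the point is known to the point -/
theorem kn0_VB (h1 : B.lam i0 + e ≤ 1) (h2 : ηn + e ≤ 1) : Kn0 (B.Sj i0 e he)
    (fun k => Setoid.ker ((TR.vec (LD.pf (B := B) i0 e he ηn hη)).cellv 1 k))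
    (chgI (B.V i0) e he (l.pj.mapI (Inf.sup (s.IP 1) (s.It 1)))).1 := by
  apply kn0_vec
  intro i
  have h3 : cl (chgI (B.V i0) e he (l.pj.mapI (Inf.sup (s.IP 1) (s.It 1)))) =
      chgL (B.V i0) e he (l.pj.map (lB s)) := by
    rw [← cl_B]
    rfl
  rw [h3]
  exact H.pf_le i0 he hη h1 h2 i

include H in
/-- AGREEMENT, raw labels -/
theorem agW (h1 : B.lam i0 + e ≤ 1) (h2 : ηn + e ≤ 1) {σ σ' : ℝ} (hs : B.q i0 ≤ B.q (ix σ))
    (hs' : B.q (ix σ) ≤ B.q (ix σ')) : AgW (D.rd i0 e he ηn hη ix) σ σ' := by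
  have hA := H.kn0_VA i0 he hη h1 h2
  have hB := H.kn0_VB i0 he hη h1 h2
  refine agr_raw (wV l (B.V i0)) (Inf.sup (Inf.sup (s.Ia 1) (s.Ix 1)) (s.It (B.q (ix σ)))) (Inf.sup (s.IP 1) (s.It 1))
    (B.V (ix σ)) (B.V (ix σ')) (fun k => H.nest i0 (ix σ) hs k)
    (fun k => H.nest (ix σ) (ix σ') hs' k) (H.kap (ix σ)) (H.kap (ix σ')).1.2 he _ _ _ ?_ ?_ ?_
  · exact kn0_pair (T := B.Sj i0 e he) ((TR.vec (D.lf i0 e he ηn hη)).cellv 1) (B.V (ix σ)) _ _ hA
      (fun k => inf_le_right.trans (setoid_comap_mono _ inf_le_left)) (fun k => inf_le_left)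
  · exact kn0_pair (T := B.Sj i0 e he) ((TR.vec (LD.pf (B := B) i0 e he ηn hη)).cellv 1) (B.V (ix σ')) _ _ hB
      (fun k => inf_le_right) (fun k => inf_le_left)
  · exact LeS_of_le fun k w w' h => Quotient.exact h

include H in
/-- digits of the time of the corner -/
theorem tT_up {r : ℝ} (hr : r ≤ 1) : dg (D.rd i0 e he ηn hη ix).t r =
    (wV l (B.V i0)).upL e he (s.t.dg (B.q i0 + e * r)) := by
  show dg (QS.mk (B.tT i0 e he)) r = _
  rw [dg_mk _ hr, BD.tT_dg, chg_sub_dg (B.lt i0) he, H.t]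
  have h1 : TR.dg (TR.cor (s.pull l.pj).t 0) (B.q i0 + e * r) = l.pj.map (TR.dg (TR.cor s.t 0) (B.q i0 + e * r)) :=
    Pj.tr_dg l.pj (TR.cor s.t 0) _
  rw [h1, cor_t_dg]
  rfl

include H in
/-- digits of `y` of the corner -/
theorem yT_up {r : ℝ} (hr : r ≤ 1) : dg (D.rd i0 e he ηn hη ix).y r =
    (wV l (B.V i0)).upL e he (TR.dg (TR.cor s.P 0) (B.q i0 + e * r)) := by
  show dg (QS.mk (B.yT i0 e he)) r = _
  rw [dg_mk _ hr, BD.yT_dg, chg_sub_dg (B.ly i0) he, H.y]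
  have h1 : TR.dg (TR.cor (s.pull l.pj).P 0) (B.q i0 + e * r) = l.pj.map (TR.dg (TR.cor s.P 0) (B.q i0 + e * r)) :=
    Pj.tr_dg l.pj (TR.cor s.P 0) _
  rw [h1]
  rfl

include H in
/-- digits of the velocity of `y` -/
theorem xT_up {r : ℝ} (hr : r ≤ 1) : dg (D.rd i0 e he ηn hη ix).x r =
    (wV l (B.V i0)).upL e he (TR.dg (TR.cor s.x 0) (e * r)) := by
  show dg (QS.mk (D.xT i0 e he)) r = _
  rw [dg_mk _ hr]
  have h2 : TR.dg (D.xT i0 e he) r = chgL (B.V i0) e he (TR.dg (D.x 0) (e * r)) := trc_dg _ _ _ _ _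
  have h1 : TR.dg (TR.cor (s.pull l.pj).x 0) (e * r) = l.pj.map (TR.dg (TR.cor s.x 0) (e * r)) :=
    Pj.tr_dg l.pj (TR.cor s.x 0) _
  rw [h2, H.x, h1]
  rfl

include H in
/-- the line of the corner -/
theorem L_up (h1 : B.lam i0 + e ≤ 1) (h2 : ηn + e ≤ 1) :
    (D.rd i0 e he ηn hη ix).L ≤ (wV l (B.V i0)).upL e he (s.xi 1) := by
  rw [← D.iA i0 e he ηn hη ix]
  refine (io_vec (D.lf i0 e he ηn hη)).trans_le (Finset.sup_le fun i _ => ?_)
  rw [dg_mk _ le_rfl]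
  refine (lf_le i0 he hη D h1 h2 i).trans ?_
  rw [H.L]
  exact le_rfl

include H in
/-- the point of the corner -/
theorem B_up (h1 : B.lam i0 + e ≤ 1) (h2 : ηn + e ≤ 1) :
    (D.rd i0 e he ηn hη ix).B ≤ (wV l (B.V i0)).upL e he (lB s) := by
  rw [← D.iB i0 e he ηn hη ix]
  refine (io_vec (LD.pf (B := B) i0 e he ηn hη)).trans_le (Finset.sup_le fun i _ => ?_)
  rw [dg_mk _ le_rfl]
  exact H.pf_le i0 he hη h1 h2 i

include H in
/-- TIME -/
theorem time (h1 : B.lam i0 + e ≤ 1) (h2 : ηn + e ≤ 1) :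
    h (dg (D.rd i0 e he ηn hη ix).t 1) (D.rd i0 e he ηn hη ix).L = 1 := by
  have hq : B.q i0 + e ≤ 1 := by
    have := B.qlam i0
    linarith
  have h3 := time_ovr s he (B.q0 i0) (show B.q i0 ≤ B.q i0 + e by linarith) hq (H.kap i0).dm
    ((H.kap i0).t_bot (B.q1 i0)) (H.L_up i0 he hη ix h1 h2)
  have h4 : h (dg (D.rd i0 e he ηn hη ix).t 1) (D.rd i0 e he ηn hη ix).L = (B.q i0 + e - B.q i0) / e := by
    rw [H.tT_up i0 he hη ix le_rfl, mul_one]
    exact h3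
  rw [h4]
  field_simp
  ring

include H in
/-- LEAK OF THE LINE: any information known to the partition of the window `i` -/
theorem leakA (h1 : B.lam i0 + e ≤ 1) (h2 : ηn + e ≤ 1) {i : ℕ} {r : ℝ} (h0 : 0 ≤ r) (hr : r ≤ 1)
    (hi : B.q i = B.q i0 + e * r) {K : (B.Sj i0 e he).L}
    (hK : chgL (S := B.Sj i0 e he) (B.V i) 1 one_pos K = ⊥) :
    I K (dg (D.rd i0 e he ηn hη ix).t 1) ((D.rd i0 e he ηn hη ix).L ⊔ dg (D.rd i0 e he ηn hη ix).t r) = 0 := by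
  have hq : B.q i0 + e ≤ 1 := by
    have := B.qlam i0
    linarith
  have h3 : e * r ≤ e := by nlinarith
  have h4 : 0 ≤ e * r := by positivity
  have hd := (H.kap i).dm
  have hf : Fnr (wV l (B.V i0)) (B.V i) := fun k _ _ _ _ _ h => H.nest i0 i (by linarith) k h
  have h5 := leakA_ovr s (l := wV l (B.V i0)) (V' := B.V i) hf he
    (a := B.q i0 + e * r) (b := B.q i0 + e) (by have := B.q0 i0; linarith) (by linarith) hq (by rw [← hi]; exact hd)
    (K := K) hK (H.L_up i0 he hη ix h1 h2)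
  rw [H.tT_up i0 he hη ix le_rfl, H.tT_up i0 he hη ix hr, mul_one]
  exact h5

include H in
/-- DIRECTION: the velocity of `y` alone -/
theorem T1x {i : ℕ} (hi : B.q i0 ≤ B.q i) {K : (B.Sj i0 e he).L}
    (hK : chgL (S := B.Sj i0 e he) (B.V i) 1 one_pos K = ⊥) :
    I (dg (D.rd i0 e he ηn hη ix).x 1) K ⊥ ≤ (fx s e (B.q i0) - fx s e (B.q i)) / e := by
  have hf : Fnr (wV l (B.V i0)) (B.V i) := fun k _ _ _ _ _ h => H.nest i0 i hi k h
  exact T1_ovr s (l := wV l (B.V i0)) (V' := B.V i) hf he (a := B.q i0) (a' := B.q i) (u := e)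
    (H.kap i0) (H.kap i) (X := dg (D.rd i0 e he ηn hη ix).x 1) (K := K)
    ((H.xT_up i0 he hη ix le_rfl).trans_le (by
      rw [mul_one]
      exact (wV l (B.V i0)).upL_mono e he (TR.cor_dg_le s.x 0 e))) hK

include H in
/-- RICHNESS of the corner from the richness of the velocity of `y` (small digits, all events of all extensions) -/
theorem rich {g u : ℝ}
    (hr : ∀ (T : Sp) (p : Pj T S) (E : ∀ k, (T.F k).Ω → Prop) (hE : 0 < ul (T.pr E)) (r : ℝ), 0 ≤ r → r ≤ u →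
      g * r ≤ h (restL E hE (p.map (TR.dg (TR.cor s.x 0) r))) (restL E hE (p.map (lB s))))
    (hu : e ≤ u) (h1 : B.lam i0 + e ≤ 1) (h2 : ηn + e ≤ 1) {ε : ℝ} (hε : 0 ≤ ε) {r : ℝ} (h0 : 0 ≤ r) (hr1 : r ≤ 1) :
    Slow.RobGe (dg (D.rd i0 e he ηn hη ix).x r) (D.rd i0 e he ηn hη ix).B (g * r - ε) := by
  have h3 := ge_ovr s (H.kap i0).dm he (TR.dg (TR.cor s.x 0) (e * r)) (g := g * r) (fun T p E hE => by
    have h4 : 0 ≤ e * r := by positivity
    have h5 : e * r ≤ u := by nlinarith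
    have h6 := hr T p E hE (e * r) h4 h5
    have h7 : g * r * e = g * (e * r) := by ring
    rw [h7]
    exact h6) (H.B_up i0 he hη ix h1 h2)
  intro W p E hE
  have h4 := h3 W p E hE
  rw [H.xT_up i0 he hη ix hr1]
  refine le_trans ?_ h4
  linarith

end OfSys

/-- trimmed labels are known to their partitions -/
theorem kap_bot' {T : Sp} {B : BD T} (D : LD B) (i0 : ℕ) {e : ℝ} (he : 0 < e) {ηn : ℝ} (hη : ηn ≤ B.eta i0) (ix : ℝ → ℕ)
    {r : ℝ} {E : ∀ k, ((B.Sj i0 e he).F k).Ω → Prop} (hb : Bdd (trm E ((D.rd i0 e he ηn hη ix).K r))) :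
    chgL (S := B.Sj i0 e he) (B.V (ix r)) 1 one_pos (io (trm E ((D.rd i0 e he ηn hη ix).K r))) = ⊥ :=
  chg_trm (S := B.Sj i0 e he) (B.V (ix r)) hb (Eventually.of_forall fun _ _ _ _ _ _ h => Quotient.sound h)

end

end Pool.Agent.Helper71.AGR
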