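import Pool.Agent.Helper71.AGR.Sat
import Pool.Agent.Helper80.HCI.Lk
import Pool.Agent.Helper99.EC.FinC

/-! AGREEMENT FUNCTIONS ARE KNOWN TO THE SATURATED LABEL, level 1. `m` a maximal label for `(A, B)`, `VN` a finer label
without leak at `B`: a function of `(A, m)` and a function of `(B, VN)` which are close on an event of positive
probability: the rounding is a function of `m` on the event; if the second function is a function of the variable `Y`
up to few values, then it is known to the saturated label. -/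

set_option autoImplicit false

namespace Pool.Agent.Helper71.AGR

open Finset Filter Topology Pool.Agent.Helper69.RK Pool.Agent.Helper31.EC Pool.Agent.Helper31.EC.Sp
open Pool.Agent.Helper40.EL Pool.Agent.Helper99.EC Pool.Agent.Helper80.HCI

noncomputable section

/-- functions of `(A, l)` which produce no leak at `B` are functions of a maximal label -/
theorem fun_small_dm {S : Sp} {l : Lab S} {A B : Part S} (hl : l.IsMax A B) (hA : A.Bd)
    (W : ∀ k, Setoid (l k).T.Ω)
    (h1 : Nul S (fun k => h (fc (W k) : FL (l k).T) ((l k).v ⊔ (l k).p.map (A k))))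
    (h2 : Nul S (fun k => ((l.addW W) k).leak (B k))) :
    Nul S (fun k => h (fc (W k) : FL (l k).T) (l k).v) := by
  have hd : (l.addW W).DM A B :=
    ⟨(hl.1.1.add h1).of_le (Eventually.of_forall fun k => FLab.leak_nonneg _ _)
      (Eventually.of_forall fun k => (l k).addW_leak_le (W k) (A k)), h2⟩
  have hle := hl.2 _ hd
  have t1 := ul_tendsto (hd.ub hA)
  have t2 := ul_tendsto (hl.1.ub hA)
  have t3 : Tendsto (fun k => ((l.addW W) k).info / (S.F k).n - (l k).info / (S.F k).n +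
      h (fc (W k) : FL (l k).T) ((l k).v ⊔ (l k).p.map (A k)) / (S.F k).n) UF
      (𝓝 ((l.addW W).info - l.info + 0)) := (t1.sub t2).add h1
  have hb : ∀ k, h (fc (W k) : FL (l k).T) (l k).v / (S.F k).n ≤ ((l.addW W) k).info / (S.F k).n -
      (l k).info / (S.F k).n + h (fc (W k) : FL (l k).T) ((l k).v ⊔ (l k).p.map (A k)) / (S.F k).n := by
    intro k
    have h3 := (l k).addW_info_ge (W k) (A k)
    rw [← sub_div, ← add_div]
    apply div_le_div_of_nonneg_right _ (S.F k).pos.le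
    have h4 : ((l.addW W) k).info = ((l k).addW (W k)).info := rfl
    rw [h4]
    linarith
  have h0 : ∀ k, 0 ≤ h (fc (W k) : FL (l k).T) (l k).v / (S.F k).n := fun k =>
    div_nonneg (h_nonneg _ _) (S.F k).pos.le
  have hL : 0 ≤ (l.addW W).info - l.info + 0 :=
    ge_of_tendsto t3 (Eventually.of_forall fun k => (h0 k).trans (hb k))
  have hE : (l.addW W).info = l.info := by linarith
  rw [hE, sub_self, add_zero] at t3
  exact tendsto_of_tendsto_of_tendsto_of_le_of_le tendsto_const_nhds t3 h0 hb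

section one

variable {S : Sp} {m : Lab S} {A B : Part S} (hm : m.IsMax A B) (hA : A.Bd)
  (hA₂ : ∀ E : ∀ k, (m.sp.F k).Ω → Prop, (A.im m.pj E).Bd)
  (VN : ∀ k, Setoid (m.sp.F k).Ω) (hVN : ∀ k, VN k ≤ (m k).V)
  (hN : Nul S (fun k => ((wV m VN) k).leak (B k)))

include hm hA hA₂ hVN hN in
/-- EXACT AGREEMENT: the function of `B` may use the finer label -/
theorem agr_im {ι : Type} [Fintype ι] (gA gB : ∀ k, (m k).T.Ω → ι → ℝ) (ρ : ℕ → ℝ) (hρ : ∀ k, 0 < ρ k)
    (hgA : Nul S (fun k => h (fc (Setoid.ker (gA k)) : FL (m k).T) ((m k).v ⊔ (m k).p.map (A k))))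
    (hgB : Nul S (fun k => h (fc (Setoid.ker (gB k)) : FL (m k).T) (fc (VN k) ⊔ (m k).p.map (B k))))
    (E : ∀ k, (m.sp.F k).Ω → Prop)
    (hcl : ∀ᶠ k in UF, ∀ ω, (m k).T.μ ω ≠ 0 → E k ω → ∀ a, |gA k ω a - gB k ω a| ≤ ρ k)
    (hE : 0 < ul (m.sp.pr E)) :
    Nul S (fun k => h (fc (Setoid.ker fun ω => rdv (ρ k) (gB k ω)) : FL ((m k).T.rest (E k)))
        ((m k).T.rmap (E k) (m k).v)) := by
  classical
  have hmono : ∀ (c : ∀ k, (m k).T.Ω → ι → ℝ) (k : ℕ),
      (fc (Setoid.ker fun ω => rdv (ρ k) (c k ω)) : FL (m k).T) ≤ fc (Setoid.ker (c k)) := by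
    intro c k
    apply fc_mono
    intro ω ω' h
    have h' : c k ω = c k ω' := h
    show rdv (ρ k) (c k ω) = rdv (ρ k) (c k ω')
    rw [h']
  have hB1 : Nul S (fun k => h (fc (Setoid.ker fun ω => rdv (ρ k) (gB k ω)) : FL (m k).T)
      (fc (VN k) ⊔ (m k).p.map (B k))) :=
    hgB.of_le (Eventually.of_forall fun k => h_nonneg _ _)
      (Eventually.of_forall fun k => h_mono (hmono gB k))
  have hA1 : Nul S (fun k => h (fc (Setoid.ker fun ω => rdv (ρ k) (gA k ω)) : FL (m k).T)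
      ((m k).v ⊔ (m k).p.map (A k))) :=
    hgA.of_le (Eventually.of_forall fun k => h_nonneg _ _)
      (Eventually.of_forall fun k => h_mono (hmono gA k))
  have hB2 := Lab.nul_rmap (l := m) E hE _ _ hB1
  have hA2 := Lab.nul_rmap (l := m) E hE _ _ hA1
  have hev : ∀ᶠ k in UF, (m k).T.pb (E k) ≠ 0 := by
    have h1 : Tendsto (m.sp.pr E) UF (𝓝 (ul (m.sp.pr E))) := ul_tendsto (Sp.UB_pr E)
    filter_upwards [h1.eventually (lt_mem_nhds hE)] with k hk
    exact hk.ne'
  -- the restricted label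
  have hmE := hm.im_max E hE hA (hA₂ _)
  set W : ∀ k, Setoid ((m.im E) k).T.Ω := fun k => Setoid.ker fun ω => rdv (ρ k) (gB k ω) with hW
  have e : ∀ (A : Part S) (k : ℕ), ((m.im E) k).v ⊔ ((m.im E) k).p.map ((A.im m.pj E) k) =
      (m k).T.rmap (E k) ((m k).v ⊔ (m k).p.map (A k)) := by
    intro A k
    have e1 : ((m.im E) k).p.map ((A.im m.pj E) k) = (m k).T.rmap (E k) ((m k).p.map (A k)) :=
      FSp.imp_imap (m k).p (E k) (A k)
    rw [e1]
    exact ((m k).T.rmap_sup (E k) (m k).v ((m k).p.map (A k))).symm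
  refine fun_small_dm hmE (hA.im m.pj hE) W ?_ ?_
  · have e2 : (fun k => h (fc (W k) : FL ((m.im E) k).T) (((m.im E) k).v ⊔ ((m.im E) k).p.map ((A.im m.pj E) k))) =
        fun k => h (fc (W k) : FL ((m k).T.rest (E k))) ((m k).T.rmap (E k) ((m k).v ⊔ (m k).p.map (A k))) := by
      funext k; rw [e A k]; rfl
    rw [e2]
    set N := Nat.card (ι → Fin 3) with hNN
    have h3 : Nul S (fun k => h (fc (W k) : FL ((m k).T.rest (E k)))
        ((m k).T.rmap (E k) ((m k).v ⊔ (m k).p.map (A k)))) := by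
      refine ((Nul.const S (Real.logb 2 N)).add hA2).of_le (Eventually.of_forall fun k => h_nonneg _ _) ?_
      filter_upwards [hev, hcl] with k hk hck
      obtain ⟨N', e, hN', he⟩ := rdv_few (ι := ι) (ρ k) (hρ k)
      have h3 := h_few (F := (m k).T) (E k) (fun ω => rdv (ρ k) (gB k ω)) (fun ω => rdv (ρ k) (gA k ω)) N' e
        (fun ω hω0 hω => he _ _ (hck ω hω0 hω)) hk
      rw [hN'] at h3
      have h4 := h_triangle (fc (Setoid.ker fun ω => rdv (ρ k) (gB k ω)) : FL ((m k).T.rest (E k)))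
        (fc (Setoid.ker fun ω => rdv (ρ k) (gA k ω))) ((m k).T.rmap (E k) ((m k).v ⊔ (m k).p.map (A k)))
      have h5 : h (fc (Setoid.ker fun ω => rdv (ρ k) (gB k ω)) : FL ((m k).T.rest (E k)))
          (fc (Setoid.ker fun ω => rdv (ρ k) (gA k ω)) ⊔ (m k).T.rmap (E k) ((m k).v ⊔ (m k).p.map (A k))) ≤
          h (fc (Setoid.ker fun ω => rdv (ρ k) (gB k ω)) : FL ((m k).T.rest (E k)))
            (fc (Setoid.ker fun ω => rdv (ρ k) (gA k ω))) := h_anti le_sup_left
      exact h4.trans (add_le_add (h5.trans h3) le_rfl)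
    exact h3
  · -- the leak at `B`
    have hN1 : Nul m.sp (fun k => ((wV m VN) k).leak (B k)) := by
      rw [nul_n (S := S) (fun k => (m k).hn)]
      exact hN
    have hN2 : Nul m.sp (fun k => (((wV m VN) k).im (E k)).leak (FSp.imap (m k).p (E k) (B k))) :=
      Nul.div_pr hE hN1 (fun k => FLab.leak_nonneg _ _) (fun k => ((wV m VN) k).im_leak (E k) (B k))
    rw [nul_n (S := S) (fun k => (m k).hn)] at hN2
    have hs := hN2.add hB2
    refine Nul.of_le (S := Sp.im m.pj E) hs (Eventually.of_forall fun k => FLab.leak_nonneg _ _)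
      (Eventually.of_forall fun k => ?_)
    have e1 : ((m.im E) k).p.map ((B.im m.pj E) k) = (m k).T.rmap (E k) ((m k).p.map (B k)) :=
      FSp.imp_imap (m k).p (E k) (B k)
    obtain ⟨top, htop⟩ : ∃ t, t = ((m.im E) k).p.top := ⟨_, rfl⟩
    obtain ⟨b, hb⟩ : ∃ b, b = (m k).T.rmap (E k) ((m k).p.map (B k)) := ⟨_, rfl⟩
    obtain ⟨vN, hvN⟩ : ∃ v : FL ((m k).T.rest (E k)), v = fc (F := (m k).T.rest (E k)) (VN k) := ⟨_, rfl⟩
    obtain ⟨w, hw⟩ : ∃ v : FL ((m k).T.rest (E k)), v = fc (F := (m k).T.rest (E k)) (W k) := ⟨_, rfl⟩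
    obtain ⟨v, hv⟩ : ∃ v : FL ((m k).T.rest (E k)), v = ((m.im E) k).v := ⟨_, rfl⟩
    have h1 : ((m.im E).addW W k).leak ((B.im m.pj E) k) = I (v ⊔ w) top b := by
      rw [htop, hb, ← e1, hv, hw]; rfl
    have h2 : (((wV m VN) k).im (E k)).leak (FSp.imap (m k).p (E k) (B k)) = I vN top b := by
      rw [htop, hb, ← FSp.imp_imap (m k).p (E k) (B k), hvN]; rfl
    have h3 : v ≤ vN := by
      rw [hv, hvN]; exact fc_mono (hVN k)
    have h4 : ((m k).T.rmap (E k) (fc (VN k) ⊔ (m k).p.map (B k))) = vN ⊔ b := by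
      rw [hb, hvN, (m k).T.rmap_sup]; rfl
    have h6 : (m k).T.rmap (E k) (fc (Setoid.ker fun ω => rdv (ρ k) (gB k ω))) = w := by rw [hw, hW]; rfl
    rw [h1, h2, h4, h6]
    have h5 : I (v ⊔ w) top b ≤ I (vN ⊔ w) top b := I_mono_left ((sup_le_sup_right h3 _).trans le_sup_left)
    refine h5.trans ?_
    rw [I_chain]
    exact add_le_add le_rfl (I_le_h_left _ _ _)

end one

end

end Pool.Agent.Helper71.AGR
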