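import Pool.Agent.Helper71.AGR.Raw
import Pool.Agent.Helper98.FR.Dat

/-! AGREEMENT in the corner of a box (`Bx`, helper98): field `agr` of the corner, raw labels. -/

set_option autoImplicit false

namespace Pool.Agent.Helper71.AGR

open Finset Filter Topology Pool.Agent.Helper69.RK Pool.Agent.Helper31.EC Pool.Agent.Helper31.EC.Sp
open Pool.Agent.Helper40.EL Pool.Agent.Helper99.EC Pool.Agent.Helper80.HCI Pool.Agent.Helper98.FR
open Pool.Agent.Helper60.CS Pool.Agent.Helper82.TP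

noncomputable section

open QS

variable {S : Sp}

/-- the unit does not matter -/
theorem chg_kn0 (Z : ∀ k, Setoid (S.F k).Ω) {e : ℝ} (he : 0 < e) (X Y : ∀ k, Setoid (S.F k).Ω) :
    Kn0 (S.chg Z e he) X Y ↔ Kn0 S X (fun k => Y k ⊓ Z k) := by
  have e1 : (S.chg Z e he).rt X Y = fun k => S.rt X (fun k => Y k ⊓ Z k) k / e :=
    funext fun k => chg_rt Z e he X Y k
  unfold Kn0
  rw [e1]
  constructor
  · intro h
    have h1 := h.const_mul e
    rw [mul_zero] at h1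
    refine h1.congr fun k => ?_
    field_simp
  · intro h
    have h1 := h.div_const e
    rw [zero_div] at h1
    exact h1

theorem chg_le_iff (Z : ∀ k, Setoid (S.F k).Ω) {e : ℝ} (he : 0 < e) (x y : S.L) :
    chgL Z e he x ≤ chgL Z e he y ↔ chgL Z 1 one_pos x ≤ chgL Z 1 one_pos y := by
  induction x using cl_ind with | _ A
  induction y using cl_ind with | _ B
  rw [chgL_cl, chgL_cl, chgL_cl, chgL_cl, le_iff_kn0, le_iff_kn0]
  exact (chg_kn0 Z he A.1 B.1).trans (chg_kn0 Z one_pos A.1 B.1).symm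

/-- what is known to `L` over a partition -/
def Kg (Z : ∀ k, Setoid (S.F k).Ω) (L : S.L) (f : TR S) : Prop :=
  ∀ r ≤ (1 : ℝ), chgL Z 1 one_pos (TR.dg f r) ≤ chgL Z 1 one_pos L

section Kg

variable {Z : ∀ k, Setoid (S.F k).Ω} {L : S.L} {f g : TR S}

theorem kg_of_Lt (hf : Lt Z f) : Kg Z L f := fun r _ => by
  rw [hf.chg_bot 1 one_pos r]
  exact bot_le

theorem kg_of_le (hf : TR.dg f 1 ≤ L) : Kg Z L f := fun _ hr => chgL_mono _ _ _ ((TR.dg_mono _ hr).trans hf)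

theorem Kg.add (hf : Kg Z L f) (hg : Kg Z L g) : Kg Z L (f + g) := fun r hr =>
  (chgL_mono _ _ _ (TR.add_dg_le f g r)).trans (by rw [chgL_sup]; exact sup_le (hf r hr) (hg r hr))

theorem Kg.mul (hf : Kg Z L f) (hg : Kg Z L g) : Kg Z L (f * g) := fun r hr =>
  (chgL_mono _ _ _ (TR.mul_dg_le f g r)).trans (by rw [chgL_sup]; exact sup_le (hf r hr) (hg r hr))

theorem Kg.sub (hf : Kg Z L f) (hg : Kg Z L g) : Kg Z L (f - g) := fun r hr => by
  rw [sub_eq_add_neg]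
  refine (chgL_mono _ _ _ (TR.add_dg_le f (-g) r)).trans ?_
  rw [chgL_sup]
  exact sup_le (hf r hr) ((chgL_mono _ _ _ (TR.neg_dg_le g r)).trans (hg r hr))

theorem Kg.trc (hf : Kg Z L f) {e : ℝ} (he : 0 < e) (h1 : e ≤ 1) :
    TR.dg (Pool.Agent.Helper60.CS.trc Z e he f) 1 ≤ chgL Z e he L := by
  rw [trc_dg, mul_one, chg_le_iff]
  exact hf e h1

theorem Kg.nf (hf : Kg Z L f) {e : ℝ} (he : 0 < e) {r : ℝ} (hr : r ≤ 1) (hm : QS.mk f ∈ Id S r) (h1 : r + e ≤ 1) :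
    TR.dg (Pool.Agent.Helper98.FR.nf Z e he f r hr hm) 1 ≤ chgL Z e he L := by
  rw [nf_dg, mul_one, chg_le_iff]
  exact hf _ h1

end Kg

/-- a vector variable, all coordinates of which are known -/
theorem kn0_vec {T : Sp} {m : ℕ} (y : Fin m → TR T) (I : T.Inf) (h : ∀ i, TR.dg (y i) 1 ≤ cl I) :
    Kn0 T (fun k => Setoid.ker ((TR.vec y).cellv 1 k)) I.1 := by
  have hb : Bdd ((TR.vec y).cellv 1) := (TR.vec y).bdd 1
  have h1 : io ((TR.vec y).cellv 1) ≤ cl I := by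
    rw [io_vec]
    refine Finset.sup_le fun i _ => ?_
    rw [dg_mk _ le_rfl]
    exact h i
  rw [io_eq hb, le_iff_kn0] at h1
  exact h1

/-! ### box data -/

section bd

variable (B : BD S) {P : S.L} (i0 : ℕ) {e : ℝ} (he : 0 < e) {ηn : ℝ} (hη : ηn ≤ B.eta i0)

theorem kg_Rr (ht : Kg (B.V i0) P B.t) (hy : Kg (B.V i0) P B.y) (hR : Kg (B.V i0) P B.R) :
    Kg (B.V i0) P (B.Rr i0) :=
  hR.sub (((kg_of_Lt (B.lr i0 0)).add ((kg_of_Lt (B.lr i0 1)).mul ht)).add ((kg_of_Lt (B.lr i0 2)).mul hy))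

theorem kg_Zr (ht : Kg (B.V i0) P B.t) (hy : Kg (B.V i0) P B.y) (hR : Kg (B.V i0) P B.R) (hz : Kg (B.V i0) P B.z) :
    Kg (B.V i0) P (B.Zr i0) :=
  hz.sub ((((kg_of_Lt (B.lc i0 0)).add ((kg_of_Lt (B.lc i0 1)).mul ht)).add ((kg_of_Lt (B.lc i0 2)).mul hy)).add
    ((kg_of_Lt (B.lc i0 3)).mul hR))

/-- the functions of the point in the box are known to the point -/
theorem pf_le (ht : Kg (B.V i0) P B.t) (hy : Kg (B.V i0) P B.y) (hR : Kg (B.V i0) P B.R) (hz : Kg (B.V i0) P B.z)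
    (h1 : B.lam i0 + e ≤ 1) (h2 : ηn + e ≤ 1) (i : Fin 4) :
    TR.dg (LD.pf (B := B) i0 e he ηn hη i) 1 ≤ chgL (B.V i0) e he P := by
  have h3 : B.q i0 + e ≤ 1 := by
    have := B.qlam i0
    linarith
  have a0 : TR.dg (B.tT i0 e he) 1 ≤ chgL (B.V i0) e he P :=
    (ht.sub (kg_of_Lt (B.lt i0))).nf he (B.q1 i0) (B.T_mem i0) h3
  have a1 : TR.dg (B.yT i0 e he) 1 ≤ chgL (B.V i0) e he P :=
    (hy.sub (kg_of_Lt (B.ly i0))).nf he (B.q1 i0) (B.Y_mem i0) h3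
  have a2 : TR.dg (B.RT i0 e he) 1 ≤ chgL (B.V i0) e he P :=
    (kg_Rr B i0 ht hy hR).nf he (B.lam1 i0) (B.Rr_mem i0) h1
  have a3 : TR.dg (B.zT i0 e he ηn hη) 1 ≤ chgL (B.V i0) e he P :=
    (kg_Zr B i0 ht hy hR hz).nf he (hη.trans (B.eta1 i0)) (Id_anti hη (B.Zr_mem i0)) h2
  fin_cases i
  · exact a0
  · exact a1
  · exact a2
  · exact a3

variable {B} (D : LD B)

/-- the functions of the line in the box are known to the line -/
theorem lf_le (h1 : B.lam i0 + e ≤ 1) (h2 : ηn + e ≤ 1) (i : Fin 6) :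
    TR.dg (D.lf i0 e he ηn hη i) 1 ≤ chgL (B.V i0) e he D.L := by
  have h0 : 0 ≤ B.q i0 := B.q0 i0
  have hl := B.lam0 i0
  have hl1 := B.lam1 i0
  have he1 := B.eta1 i0
  have h3 : B.q i0 + e ≤ 1 := by
    have := B.qlam i0
    linarith
  have k0 : Kg (B.V i0) D.L (D.x 0) := D.kw_x i0 0
  have k1 : Kg (B.V i0) D.L (D.vr i0) := D.kw_vr i0
  have k2 : Kg (B.V i0) D.L (D.vz i0) := D.kw_vz i0
  have k3 : Kg (B.V i0) D.L (D.iy i0) := D.kw_iy i0
  have k4 : Kg (B.V i0) D.L (D.ir i0) := D.kw_ir i0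
  have k5 : Kg (B.V i0) D.L (D.iz i0) := D.kw_iz i0
  have a0 : TR.dg (D.xT i0 e he) 1 ≤ chgL (B.V i0) e he D.L := k0.trc he (by linarith)
  have a1 : TR.dg (D.vrT i0 e he) 1 ≤ chgL (B.V i0) e he D.L :=
    k1.nf he (r := B.lam i0 - B.q i0) (by linarith) (D.vr_mem i0) (by linarith)
  have a2 : TR.dg (D.vzT i0 e he ηn hη) 1 ≤ chgL (B.V i0) e he D.L :=
    k2.nf he (r := ηn - B.q i0) (by linarith) (D.vz_mem i0 hη) (by linarith)
  have a3 : TR.dg (D.iyT i0 e he) 1 ≤ chgL (B.V i0) e he D.L := k3.nf he (B.q1 i0) (D.iy_mem i0) h3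
  have a4 : TR.dg (D.irT i0 e he) 1 ≤ chgL (B.V i0) e he D.L := k4.nf he (B.lam1 i0) (D.ir_mem i0) h1
  have a5 : TR.dg (D.izT i0 e he ηn hη) 1 ≤ chgL (B.V i0) e he D.L :=
    k5.nf he (hη.trans (B.eta1 i0)) (D.iz_mem i0 hη) h2
  fin_cases i
  · exact a0
  · exact a1
  · exact a2
  · exact a3
  · exact a4
  · exact a5

end bd

/-! ### the corner of a box -/

section box

variable {s : Sys S 3} {q lam eta : ℕ → ℝ} {L : ℕ → Lab S} (b : Bx s q lam eta L)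

/-- the point and the time in the space of the family -/
def lP : b.M.sp.L := (famPj b.M).map (lB s)

theorem kg_t (i : ℕ) : Kg (b.bd.V i) (lP b) b.bd.t := by
  refine kg_of_le ?_
  have h1 : TR.dg b.bd.t 1 = (famPj b.M).map (TR.dg (TR.cor s.t 0) 1) := Pj.tr_dg (famPj b.M) (TR.cor s.t 0) 1
  rw [h1]
  refine (famPj b.M).map_mono ?_
  rw [T_eq]
  exact le_sup_right

theorem kg_P (i : ℕ) (j : Fin 3) : Kg (b.bd.V i) (lP b) (TR.cor b.sy.P j) := by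
  refine kg_of_le ?_
  have h1 : TR.dg (TR.cor b.sy.P j) 1 = (famPj b.M).map (TR.dg (TR.cor s.P j) 1) := Pj.tr_dg (famPj b.M) (TR.cor s.P j) 1
  rw [h1]
  exact (famPj b.M).map_mono ((TR.cor_dg_le s.P j 1).trans le_sup_left)

variable (i0 : ℕ) {e : ℝ} (he : 0 < e) {ηn : ℝ} (hη : ηn ≤ b.bd.eta i0)

/-- the literal variable of the line is known to the line -/
theorem kn0_VA (h1 : lam i0 + e ≤ 1) (h2 : ηn + e ≤ 1) : Kn0 (b.bd.Sj i0 e he)
    (fun k => Setoid.ker ((TR.vec (b.ld.lf i0 e he ηn hη)).cellv 1 k))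
    (chgI (b.bd.V i0) e he ((famPj b.M).mapI (Inf.sup (s.Ia 1) (s.Ix 1)))).1 := by
  apply kn0_vec
  intro i
  have h3 : cl (chgI (b.bd.V i0) e he ((famPj b.M).mapI (Inf.sup (s.Ia 1) (s.Ix 1)))) =
      chgL (b.bd.V i0) e he ((famPj b.M).map (s.xi 1)) := by
    have h4 : s.xi 1 = cl (Inf.sup (s.Ia 1) (s.Ix 1)) := by
      rw [cl_sup, s.cl_Ia, s.cl_Ix]
      rfl
    rw [h4]
    rfl
  rw [h3]
  exact lf_le i0 he hη b.ld h1 h2 i

/-- the literal variable of the point is known to the point -/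
theorem kn0_VB (h1 : lam i0 + e ≤ 1) (h2 : ηn + e ≤ 1) : Kn0 (b.bd.Sj i0 e he)
    (fun k => Setoid.ker ((TR.vec (LD.pf (B := b.bd) i0 e he ηn hη)).cellv 1 k))
    (chgI (b.bd.V i0) e he ((famPj b.M).mapI (Inf.sup (s.IP 1) (s.It 1)))).1 := by
  apply kn0_vec
  intro i
  have h3 : cl (chgI (b.bd.V i0) e he ((famPj b.M).mapI (Inf.sup (s.IP 1) (s.It 1)))) =
      chgL (b.bd.V i0) e he (lP b) := by
    unfold lP
    rw [← cl_B]
    rfl
  rw [h3]
  exact pf_le b.bd i0 he hη (kg_t b i0) (kg_P b i0 0) (kg_P b i0 1) (kg_P b i0 2) h1 h2 i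

/-- AGREEMENT in the corner of a box, for the raw labels -/
theorem agW_box (ix : ℝ → ℕ) (h1 : lam i0 + e ≤ 1) (h2 : ηn + e ≤ 1) {σ σ' : ℝ} (hs : q i0 ≤ q (ix σ))
    (hs' : q (ix σ) ≤ q (ix σ')) : AgW (b.ld.rd i0 e he ηn hη ix) σ σ' := by
  have hA := kn0_VA b i0 he hη h1 h2
  have hB := kn0_VB b i0 he hη h1 h2
  refine agr_raw (b.M.lab i0) (Inf.sup (Inf.sup (s.Ia 1) (s.Ix 1)) (s.It (q (ix σ)))) (Inf.sup (s.IP 1) (s.It 1))
    (fun k => (b.M k).V (ix σ)) (fun k => (b.M k).V (ix σ')) (fun k => b.nest i0 (ix σ) hs k)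
    (fun k => b.nest (ix σ) (ix σ') hs' k) (b.kap (ix σ)) (b.kap (ix σ')).1.2 he _ _ _ ?_ ?_ ?_
  · have h3 : Kn0 (b.bd.Sj i0 e he) (fun k => Setoid.ker ((TR.vec (b.ld.lf i0 e he ηn hη)).cellv 1 k))
        (fun k => (b.M k).V (ix σ) ⊓ Setoid.comap ((famPj b.M).π k)
          ((Inf.sup (Inf.sup (s.Ia 1) (s.Ix 1)) (s.It (q (ix σ)))).1 k)) :=
      hA.mono_right fun k w w' h => h.2.1
    refine (h3.inf (Kn0_of_le (A := fun k => (b.M k).V (ix σ)) fun k => inf_le_left)).mono_left fun k w w' h => ?_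
    exact Prod.ext h.1 (Quotient.sound h.2)
  · have h3 : Kn0 (b.bd.Sj i0 e he) (fun k => Setoid.ker ((TR.vec (LD.pf (B := b.bd) i0 e he ηn hη)).cellv 1 k))
        (fun k => (b.M k).V (ix σ') ⊓ Setoid.comap ((famPj b.M).π k) ((Inf.sup (s.IP 1) (s.It 1)).1 k)) :=
      hB.mono_right fun k w w' h => h.2
    refine (h3.inf (Kn0_of_le (A := fun k => (b.M k).V (ix σ')) fun k => inf_le_left)).mono_left fun k w w' h => ?_
    exact Prod.ext h.1 (Quotient.sound h.2)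
  · exact LeS_of_le fun k w w' h => Quotient.exact h

end box

end

end Pool.Agent.Helper71.AGR
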