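import Pool.Agent.Helper71.AGR.Rep
import Pool.Agent.Helper31.EC.Chg

/-! THE GREATEST INFORMATION which is known to `Y` and to a partition `V` of arbitrary entropy. -/

set_option autoImplicit false

namespace Pool.Agent.Helper71.AGR

open Finset Filter Topology Pool.Agent.Helper69.RK Pool.Agent.Helper31.EC Pool.Agent.Helper31.EC.Sp

noncomputable section

variable {T : Sp}

/-- known to `V` in rates, for classes -/
def KnL (V : ∀ k, Setoid (T.F k).Ω) (x : T.L) : Prop := chgL V 1 one_pos x = ⊥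

theorem KnL_cl (V : ∀ k, Setoid (T.F k).Ω) (A : T.Inf) : KnL V (cl A) ↔ Kn0 T A.1 V := by
  unfold KnL
  have h1 : H (chgL V 1 one_pos (cl A)) = ul (T.rt A.1 V) := by
    rw [H_chgL, hZ_cl, div_one]
  constructor
  · intro h
    rw [h, H_bot] at h1
    have h2 := ul_tendsto (UB_rt A V)
    rw [← h1] at h2
    exact h2
  · intro h
    have h2 : ul (T.rt A.1 V) = 0 := ul_eq h
    rw [h2, ← h_bot] at h1
    exact le_bot_iff.mp (h_eq_zero_iff.mp h1)

theorem KnL.mono {V : ∀ k, Setoid (T.F k).Ω} {x y : T.L} (hy : KnL V y) (h : x ≤ y) : KnL V x := by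
  unfold KnL at hy ⊢
  exact le_antisymm (hy ▸ chgL_mono V 1 one_pos h) bot_le

theorem KnL.sup {V : ∀ k, Setoid (T.F k).Ω} {x y : T.L} (hx : KnL V x) (hy : KnL V y) : KnL V (x ⊔ y) := by
  unfold KnL at hx hy ⊢
  rw [chgL_sup, hx, hy, sup_idem]

theorem KnL.mono_right {V V' : ∀ k, Setoid (T.F k).Ω} {x : T.L} (hx : KnL V x) (h : ∀ k, V' k ≤ V k) : KnL V' x := by
  induction x using cl_ind with | h A
  rw [KnL_cl] at hx ⊢
  exact hx.mono_right h

theorem le_iff_kn0 {A B : T.Inf} : cl A ≤ cl B ↔ Kn0 T A.1 B.1 := Iff.rfl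

/-- EXISTENCE OF THE GREATEST INFORMATION known to `Y` and to `V`, with a representative which has few values
given `Y` -/
theorem exists_can (V : ∀ k, Setoid (T.F k).Ω) (Y : T.Inf) :
    ∃ K : T.Inf, Cr Y.1 K.1 ∧ cl K ≤ cl Y ∧ KnL V (cl K) ∧ ∀ x : T.L, x ≤ cl Y → KnL V x → x ≤ cl K := by
  obtain ⟨X, hX1, hX2⟩ := exists_sat1 V Y.1 Y.2
  refine ⟨⟨X, hX1.1.VB Y.2⟩, hX1.1, le_iff_kn0.mpr hX1.1.kn0, (KnL_cl V _).mpr hX1.2, fun x h1 h2 => ?_⟩
  induction x using cl_ind with | h A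
  rw [le_iff_kn0] at h1
  rw [KnL_cl] at h2
  rw [le_iff_kn0]
  obtain ⟨D, hD, hc⟩ := exists_rep h1
  exact (kn0_star_typ hD A.2).trans (hX2 _ ⟨hc, (star_kn0 D A.1).trans h2⟩)

theorem exists_canL (V : ∀ k, Setoid (T.F k).Ω) (y : T.L) :
    ∃ κ : T.L, κ ≤ y ∧ KnL V κ ∧ ∀ x : T.L, x ≤ y → KnL V x → x ≤ κ := by
  induction y using cl_ind with | h Y
  obtain ⟨K, -, h1, h2, h3⟩ := exists_can V Y
  exact ⟨cl K, h1, h2, h3⟩

/-- the greatest information known to `y` and to `V` -/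
def can (V : ∀ k, Setoid (T.F k).Ω) (y : T.L) : T.L := (exists_canL V y).choose

theorem can_spec (V : ∀ k, Setoid (T.F k).Ω) (y : T.L) :
    can V y ≤ y ∧ KnL V (can V y) ∧ ∀ x : T.L, x ≤ y → KnL V x → x ≤ can V y := (exists_canL V y).choose_spec

theorem can_le (V : ∀ k, Setoid (T.F k).Ω) (y : T.L) : can V y ≤ y := (can_spec V y).1

theorem can_known (V : ∀ k, Setoid (T.F k).Ω) (y : T.L) : KnL V (can V y) := (can_spec V y).2.1

theorem le_can {V : ∀ k, Setoid (T.F k).Ω} {x y : T.L} (h1 : x ≤ y) (h2 : KnL V x) : x ≤ can V y :=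
  (can_spec V y).2.2 x h1 h2

theorem le_can_iff {V : ∀ k, Setoid (T.F k).Ω} {x y : T.L} : x ≤ can V y ↔ x ≤ y ∧ KnL V x :=
  ⟨fun h => ⟨h.trans (can_le V y), (can_known V y).mono h⟩, fun h => le_can h.1 h.2⟩

/-- monotone in the label -/
theorem can_mono {V V' : ∀ k, Setoid (T.F k).Ω} (h : ∀ k, V' k ≤ V k) {y y' : T.L} (hy : y ≤ y') :
    can V y ≤ can V' y' := le_can ((can_le V y).trans hy) ((can_known V y).mono_right h)

/-- a label coarser than the base gives nothing -/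
theorem can_bot {V : ∀ k, Setoid (T.F k).Ω} (h : ∀ k, (T.F k).Z ≤ V k) (y : T.L) : can V y = ⊥ := by
  have h1 := can_known V y
  obtain ⟨A, hA⟩ : ∃ A : T.Inf, cl A = can V y := ⟨_, toAntisymmetrization_ofAntisymmetrization _ _⟩
  rw [← hA, KnL_cl] at h1
  rw [← hA]
  apply le_antisymm _ bot_le
  rw [← cl_bot, le_iff_kn0]
  refine tendsto_of_tendsto_of_tendsto_of_le_of_le tendsto_const_nhds h1 (fun k => T.rt_nonneg _ _ k) (fun k => ?_)
  show (T.F k).e (A.1 k) (⊤ ⊓ (T.F k).Z) / (T.F k).n ≤ (T.F k).e (A.1 k) (V k ⊓ (T.F k).Z) / (T.F k).n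
  apply div_le_div_of_nonneg_right _ (T.F k).pos.le
  apply (T.F k).e_anti
  intro ω ω' _ _ g
  exact ⟨h k g.2, g.2⟩

/-- every class has a representative -/
theorem exists_cl (x : T.L) : ∃ A : T.Inf, cl A = x := ⟨_, toAntisymmetrization_ofAntisymmetrization _ _⟩

end

end Pool.Agent.Helper71.AGR
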