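import Pool.Agent.Helper71.AGR.Lvl

/-! LEMMA D: a function of a label on which two copies (given all data) agree is a function of the data, hence of every
variable at which the label has no leak. -/

set_option autoImplicit false

namespace Pool.Agent.Helper40.EL

open Pool.Agent.Helper31.EC

/-- finite form -/
theorem FLab.copies {F : FSp} (l : FLab F) (g : FL l.T) (x : FL F) :
    h g (l.p.map x) ≤ h ((l.am l).p2.map g) ((l.am l).p1.map l.v) + l.leak x + h g l.v := by
  have h1 : h g l.p.top ≤ h ((l.am l).p2.map g) ((l.am l).p1.map l.v) := by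
    have e1 : h g l.p.top = h ((l.am l).p2.map g) ((l.am l).p1.map l.p.top) := by
      rw [l.am_top l, (l.am l).p2.h_map]
    rw [e1]
    have h2 := l.am_indep l l.v g
    rw [I_comm, I_zero_iff_h] at h2
    rw [← h2]
    exact h_anti le_sup_left
  have h3 : I g l.p.top (l.p.map x) ≤ l.leak x + h g l.v := by
    have h4 : I g l.p.top (l.p.map x) ≤ I (l.v ⊔ g) l.p.top (l.p.map x) := I_mono_left (le_sup_right.trans le_sup_left)
    rw [I_chain] at h4
    have h5 : I g l.p.top (l.v ⊔ l.p.map x) ≤ h g (l.v ⊔ l.p.map x) := I_le_h_left _ _ _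
    have h6 : h g (l.v ⊔ l.p.map x) ≤ h g l.v := h_anti le_sup_left
    have h7 : l.leak x = I l.v l.p.top (l.p.map x) := rfl
    linarith
  have h8 : h g (l.p.map x) ≤ I g l.p.top (l.p.map x) + h g l.p.top := by
    rw [I_eq]
    have h9 : h g (l.p.top ⊔ l.p.map x) ≤ h g l.p.top := h_anti le_sup_left
    linarith
  linarith

end Pool.Agent.Helper40.EL

namespace Pool.Agent.Helper71.AGR

open Finset Filter Topology Pool.Agent.Helper69.RK Pool.Agent.Helper31.EC Pool.Agent.Helper31.EC.Sp
open Pool.Agent.Helper40.EL Pool.Agent.Helper80.HCI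

noncomputable section

variable {S : Sp} (m : Lab S)

/-- LEMMA D -/
theorem known_of_copies {B : Part S} (hB : Nul S (fun k => (m k).leak (B k))) (G : ∀ k, Setoid (m.sp.F k).Ω)
    (hG : Nul S (fun k => h (fc (G k) : FL (m k).T) (m k).v))
    (h2 : Nul S (fun k => h (((m k).am (m k)).p2.map (fc (G k))) (((m k).am (m k)).p1.map (m k).v))) :
    Nul S (fun k => h (fc (G k) : FL (m k).T) ((m k).p.map (B k))) :=
  ((h2.add hB).add hG).of_le (Eventually.of_forall fun _ => h_nonneg _ _)
    (Eventually.of_forall fun k => (m k).copies (fc (G k)) (B k))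

end

end Pool.Agent.Helper71.AGR
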