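import Pool.Agent.Helper71.AGR.Bxa
import Pool.Agent.Helper80.HCI.Ov
import Pool.Agent.Helper98.FR.Inp

/-! FIELDS of the corner of a box in the form of `cce_of` (helper98): time, leak of the line, richness, direction. -/

set_option autoImplicit false

namespace Pool.Agent.Helper71.AGR

open Finset Filter Topology Pool.Agent.Helper69.RK Pool.Agent.Helper31.EC Pool.Agent.Helper31.EC.Sp
open Pool.Agent.Helper40.EL Pool.Agent.Helper99.EC Pool.Agent.Helper80.HCI Pool.Agent.Helper98.FR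
open Pool.Agent.Helper60.CS Pool.Agent.Helper82.TP Pool.Agent.Helper79.NF Pool.Agent.Helper31.NSB

noncomputable section

open QS Pool.Agent.Helper80.MX

variable {S : Sp}

/-- a literal centre does not change the digits over the label -/
theorem chg_sub_dg {Z : ∀ k, Setoid (S.F k).Ω} {f g : TR S} (hg : Lt Z g) {e : ℝ} (he : 0 < e) (r : ℝ) :
    chgL Z e he (TR.dg (f - g) r) = chgL Z e he (TR.dg f r) := by
  have h0 := hg.chg_bot e he r
  apply le_antisymm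
  · have h1 := chgL_mono Z e he ((TR.add_dg_le f (-g) r).trans (sup_le_sup_left (TR.neg_dg_le g r) _))
    rw [← sub_eq_add_neg, chgL_sup, h0, sup_bot_eq] at h1
    exact h1
  · have h1 := chgL_mono Z e he (TR.add_dg_le (f - g) g r)
    rw [sub_add_cancel, chgL_sup, h0, sup_bot_eq] at h1
    exact h1

section fld

variable {s : Sys S 3} {q lam eta : ℕ → ℝ} {L : ℕ → Lab S} (b : Bx s q lam eta L) (i0 : ℕ) {e : ℝ} (he : 0 < e)
  {ηn : ℝ} (hη : ηn ≤ b.bd.eta i0) (ix : ℝ → ℕ)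

theorem cor_t_dg (s : Sys S 3) (r : ℝ) : TR.dg (TR.cor s.t 0) r = s.t.dg r := by
  have h2 : TR.vec (fun _ : Fin 1 => TR.cor s.t 0) = s.t := by
    have h3 : (fun _ : Fin 1 => TR.cor s.t 0) = TR.cor s.t := by
      funext i
      rw [Subsingleton.elim i 0]
    rw [h3]
    exact TR.vec_cor s.t
  unfold TR.dg
  rw [h2]

/-- digits of the time of the corner -/
theorem tT_up {r : ℝ} (hr : r ≤ 1) : dg (b.ld.rd i0 e he ηn hη ix).t r =
    (b.M.lab i0).upL e he (s.t.dg (q i0 + e * r)) := by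
  show dg (QS.mk (b.bd.tT i0 e he)) r = _
  rw [dg_mk _ hr, BD.tT_dg, chg_sub_dg (b.bd.lt i0) he]
  have h1 : TR.dg b.bd.t (q i0 + e * r) = (famPj b.M).map (TR.dg (TR.cor s.t 0) (q i0 + e * r)) :=
    Pj.tr_dg (famPj b.M) (TR.cor s.t 0) _
  rw [show b.bd.q i0 = q i0 from rfl, h1, cor_t_dg]
  rfl

/-- digits of `y` of the corner -/
theorem yT_up {r : ℝ} (hr : r ≤ 1) : dg (b.ld.rd i0 e he ηn hη ix).y r =
    (b.M.lab i0).upL e he (TR.dg (TR.cor s.P 0) (q i0 + e * r)) := by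
  show dg (QS.mk (b.bd.yT i0 e he)) r = _
  rw [dg_mk _ hr, BD.yT_dg, chg_sub_dg (b.bd.ly i0) he]
  have h1 : TR.dg b.bd.y (q i0 + e * r) = (famPj b.M).map (TR.dg (TR.cor s.P 0) (q i0 + e * r)) :=
    Pj.tr_dg (famPj b.M) (TR.cor s.P 0) _
  rw [show b.bd.q i0 = q i0 from rfl, h1]
  rfl

/-- digits of the velocity of `y` -/
theorem xT_up {r : ℝ} (hr : r ≤ 1) : dg (b.ld.rd i0 e he ηn hη ix).x r =
    (b.M.lab i0).upL e he (TR.dg (TR.cor s.x 0) (e * r)) := by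
  show dg (QS.mk (b.ld.xT i0 e he)) r = _
  rw [dg_mk _ hr]
  have h2 : TR.dg (b.ld.xT i0 e he) r = chgL (b.bd.V i0) e he (TR.dg (b.ld.x 0) (e * r)) := trc_dg _ _ _ _ _
  have h1 : TR.dg (b.ld.x 0) (e * r) = (famPj b.M).map (TR.dg (TR.cor s.x 0) (e * r)) :=
    Pj.tr_dg (famPj b.M) (TR.cor s.x 0) _
  rw [h2, h1]
  rfl

/-- the line of the corner -/
theorem L_up (h1 : lam i0 + e ≤ 1) (h2 : ηn + e ≤ 1) : (b.ld.rd i0 e he ηn hη ix).L ≤ (b.M.lab i0).upL e he (s.xi 1) := by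
  rw [← b.ld.iA i0 e he ηn hη ix]
  refine (io_vec (b.ld.lf i0 e he ηn hη)).trans_le (Finset.sup_le fun i _ => ?_)
  rw [dg_mk _ le_rfl]
  exact lf_le i0 he hη b.ld h1 h2 i

/-- the point of the corner -/
theorem B_up (h1 : lam i0 + e ≤ 1) (h2 : ηn + e ≤ 1) : (b.ld.rd i0 e he ηn hη ix).B ≤ (b.M.lab i0).upL e he (lB s) := by
  rw [← b.ld.iB i0 e he ηn hη ix]
  refine (io_vec (LD.pf (B := b.bd) i0 e he ηn hη)).trans_le (Finset.sup_le fun i _ => ?_)
  rw [dg_mk _ le_rfl]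
  exact pf_le b.bd i0 he hη (kg_t b i0) (kg_P b i0 0) (kg_P b i0 1) (kg_P b i0 2) h1 h2 i

/-- TIME -/
theorem time_rd (h1 : lam i0 + e ≤ 1) (h2 : ηn + e ≤ 1) :
    h (dg (b.ld.rd i0 e he ηn hη ix).t 1) (b.ld.rd i0 e he ηn hη ix).L = 1 := by
  have hq : q i0 + e ≤ 1 := by
    have := b.qlam i0
    linarith
  have h3 := time_ovr s he (b.q0 i0) (show q i0 ≤ q i0 + e by linarith) hq (b.kap i0).dm ((b.kap i0).t_bot (b.q1 i0))
    (L_up b i0 he hη ix h1 h2)
  have h4 : h (dg (b.ld.rd i0 e he ηn hη ix).t 1) (b.ld.rd i0 e he ηn hη ix).L = (q i0 + e - q i0) / e := by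
    rw [tT_up b i0 he hη ix le_rfl, mul_one]
    exact h3
  rw [h4]
  field_simp
  ring

/-- the partition of a deeper window, literally finer than the label of `i0` -/
theorem fnr {i : ℕ} (hi : q i0 ≤ q i) : Fnr (b.M.lab i0) (fun k => (b.M k).V i) :=
  fun k _ _ _ _ _ h => b.nest i0 i hi k h

/-- LEAK OF THE LINE: any information known to the partition of the window `i` -/
theorem leakA_rd (h1 : lam i0 + e ≤ 1) (h2 : ηn + e ≤ 1) {i : ℕ} {r : ℝ} (h0 : 0 ≤ r) (hr : r ≤ 1)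
    (hi : q i = q i0 + e * r) {K : (b.bd.Sj i0 e he).L}
    (hK : chgL (S := b.bd.Sj i0 e he) (fun k => (b.M k).V i) 1 one_pos K = ⊥) :
    I K (dg (b.ld.rd i0 e he ηn hη ix).t 1)
      ((b.ld.rd i0 e he ηn hη ix).L ⊔ dg (b.ld.rd i0 e he ηn hη ix).t r) = 0 := by
  have hq : q i0 + e ≤ 1 := by
    have := b.qlam i0
    linarith
  have h3 : e * r ≤ e := by nlinarith
  have h4 : 0 ≤ e * r := by positivity
  have hd := (b.kap i).dm
  have h5 := leakA_ovr s (l := b.M.lab i0) (V' := fun k => (b.M k).V i) (fnr b i0 (by linarith)) he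
    (a := q i0 + e * r) (b := q i0 + e) (by have := b.q0 i0; linarith) (by linarith) hq (by rw [← hi]; exact hd)
    (K := K) hK (L_up b i0 he hη ix h1 h2)
  rw [tT_up b i0 he hη ix le_rfl, tT_up b i0 he hη ix hr, mul_one]
  exact h5

/-- DIRECTION: the velocity of `y` alone -/
theorem T1x_rd {i : ℕ} (hi : q i0 ≤ q i) {K : (b.bd.Sj i0 e he).L}
    (hK : chgL (S := b.bd.Sj i0 e he) (fun k => (b.M k).V i) 1 one_pos K = ⊥) :
    I (dg (b.ld.rd i0 e he ηn hη ix).x 1) K ⊥ ≤ (fx s e (q i0) - fx s e (q i)) / e := by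
  have h5 := T1_ovr s (l := b.M.lab i0) (V' := fun k => (b.M k).V i) (fnr b i0 hi) he (a := q i0) (a' := q i) (u := e)
    (b.kap i0) (b.kap i) (X := dg (b.ld.rd i0 e he ηn hη ix).x 1) (K := K)
    ((xT_up b i0 he hη ix le_rfl).trans_le (by
      rw [mul_one]
      exact (b.M.lab i0).upL_mono e he (TR.cor_dg_le s.x 0 e))) hK
  exact h5

/-- trimmed labels are known to their partitions -/
theorem kap_bot {r : ℝ} {E : ∀ k, ((b.bd.Sj i0 e he).F k).Ω → Prop}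
    (hb : Bdd (trm E ((b.ld.rd i0 e he ηn hη ix).K r))) :
    chgL (S := b.bd.Sj i0 e he) (fun k => (b.M k).V (ix r)) 1 one_pos (io (trm E ((b.ld.rd i0 e he ηn hη ix).K r))) = ⊥ :=
  chg_trm (S := b.bd.Sj i0 e he) (fun k => (b.M k).V (ix r)) hb
    (Eventually.of_forall fun _ _ _ _ _ _ h => Quotient.sound h)

end fld

/-! ### richness -/

section rich

/-- entropies on events of extensions over a label, from entropies on events of extensions -/
theorem ge_ovr (s : Sys S 3) {l : Lab S} {a : ℝ} (hl : DMc s a l) {e : ℝ} (he : 0 < e) (X : S.L) {g : ℝ}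
    (H : ∀ (T : Sp) (p : Pj T S) (E : ∀ k, (T.F k).Ω → Prop) (hE : 0 < ul (T.pr E)),
      g * e ≤ h (restL E hE (p.map X)) (restL E hE (p.map (lB s)))) {B : (l.ovr e he).L} (hB : B ≤ l.upL e he (lB s)) :
    Slow.RobGe (l.upL e he X) B g := by
  intro W p E hE
  refine le_trans ?_ (h_anti (restL_mono E hE (p.map_mono hB)))
  induction X using Sp.cl_ind with | _ A
  rw [← cl_B, h_ovr]
  have e0 : Sp.cl (Sp.imI (exl l p).pj E (Inf.sup (s.IP 1) (s.It 1))) = lB (sysE l p E hE s) := by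
    rw [imI_sup, imI_IP l p E hE s, imI_It l p E hE s, cl_B]
  rw [e0, DMc.h_B (exE_DMc l p E hE s hl) le_rfl, ← e0, le_div_iff₀ he]
  have h1 := H (exl l p).sp (exl l p).pj E hE
  rw [← cl_B] at h1
  have h2 : h (restL (S := (exl l p).sp) E hE ((exl l p).pj.map (Sp.cl A)))
      (restL (S := (exl l p).sp) E hE ((exl l p).pj.map (Sp.cl (Inf.sup (s.IP 1) (s.It 1))))) =
      h (Sp.cl (Sp.imI (exl l p).pj E A)) (Sp.cl (Sp.imI (exl l p).pj E (Inf.sup (s.IP 1) (s.It 1)))) := by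
    rw [← (Sp.imq (exl l p).pj E).h_map]
    rfl
  rw [h2] at h1
  exact h1

variable {s : Sys S 3} {q lam eta : ℕ → ℝ} {L : ℕ → Lab S} (b : Bx s q lam eta L) (i0 : ℕ) {e : ℝ} (he : 0 < e)
  {ηn : ℝ} (hη : ηn ≤ b.bd.eta i0) (ix : ℝ → ℕ)

/-- RICHNESS of the corner from the richness of the velocity of `y` (small digits, all events of all extensions) -/
theorem rich_rd {g u : ℝ}
    (H : ∀ (T : Sp) (p : Pj T S) (E : ∀ k, (T.F k).Ω → Prop) (hE : 0 < ul (T.pr E)) (r : ℝ), 0 ≤ r → r ≤ u →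
      g * r ≤ h (restL E hE (p.map (TR.dg (TR.cor s.x 0) r))) (restL E hE (p.map (lB s))))
    (hu : e ≤ u) (h1 : lam i0 + e ≤ 1) (h2 : ηn + e ≤ 1) {r : ℝ} (h0 : 0 ≤ r) (hr : r ≤ 1) :
    Slow.RobGe (dg (b.ld.rd i0 e he ηn hη ix).x r) (b.ld.rd i0 e he ηn hη ix).B (g * r) := by
  have h3 := ge_ovr s (b.kap i0).dm he (TR.dg (TR.cor s.x 0) (e * r)) (g := g * r) (fun T p E hE => by
    have h4 : 0 ≤ e * r := by positivity
    have h5 : e * r ≤ u := by nlinarith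
    have h6 := H T p E hE (e * r) h4 h5
    have h7 : g * r * e = g * (e * r) := by ring
    rw [h7]
    exact h6) (B_up b i0 he hη ix h1 h2)
  intro W p E hE
  have h4 := h3 W p E hE
  rw [xT_up b i0 he hη ix hr]
  exact h4

/-- RICHNESS of the corner, form of `CCe` -/
theorem rich_cce {g u ε : ℝ}
    (H : ∀ (T : Sp) (p : Pj T S) (E : ∀ k, (T.F k).Ω → Prop) (hE : 0 < ul (T.pr E)) (r : ℝ), 0 ≤ r → r ≤ u →
      g * r ≤ h (restL E hE (p.map (TR.dg (TR.cor s.x 0) r))) (restL E hE (p.map (lB s))))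
    (hu : e ≤ u) (h1 : lam i0 + e ≤ 1) (h2 : ηn + e ≤ 1) (hε : 0 ≤ ε) (r : ℚ) (h0 : 0 < r) (hr : r ≤ 1) :
    Slow.RobGe (dg (b.ld.rd i0 e he ηn hη ix).x r) (b.ld.rd i0 e he ηn hη ix).B (g * r - ε) := by
  intro W p E hE
  have h3 := rich_rd b i0 he hη ix H hu h1 h2 (r := r) (by exact_mod_cast h0.le) (by exact_mod_cast hr) W p E hE
  linarith

end rich

end

end Pool.Agent.Helper71.AGR
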