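import Pool.Agent.Helper71.AGR.Agr
import Pool.Agent.Helper71.AGR.Can

/-! AGREEMENT at level 1 in the space `l.ovr e` over a label: two functions, one literal in a variable known to the
line and the window label `Vs`, the other literal in a variable known to the point, close on an event: the rounding is
known on the event to the greatest information which is known to the point and to `Vs`. Finite form. -/

set_option autoImplicit false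

namespace Pool.Agent.Helper71.AGR

open Finset Filter Topology Pool.Agent.Helper69.RK Pool.Agent.Helper31.EC Pool.Agent.Helper31.EC.Sp
open Pool.Agent.Helper40.EL Pool.Agent.Helper99.EC Pool.Agent.Helper80.HCI

noncomputable section

/-! ### translation -/

theorem nul_iff {S : Sp} (l : Lab S) (X Y : ∀ k, Setoid (l.sp.F k).Ω) :
    Nul S (fun k => h (fc (X k) : FL (l k).T) (fc (Y k))) ↔ Kn0 l.sp X Y := by
  have e : (fun k => h (fc (X k) : FL (l k).T) (fc (Y k)) / (S.F k).n) = l.sp.rt X Y := by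
    funext k
    rw [h_fc]
    show (l k).T.e (X k) (Y k ⊓ (l k).T.Z) / (S.F k).n = (l k).T.e (X k) (Y k ⊓ (l k).T.Z) / (l k).T.n
    rw [(l k).hn]
  unfold Nul Kn0
  rw [e]

theorem nul_rest_iff {S : Sp} (l : Lab S) (E : ∀ k, (l.sp.F k).Ω → Prop) (X Y : ∀ k, Setoid (l.sp.F k).Ω) :
    Nul S (fun k => h (fc (X k) : FL ((l k).T.rest (E k))) ((l k).T.rmap (E k) (fc (Y k)))) ↔
      Kn0 (l.sp.rest E) X Y := by
  have e : (fun k => h (fc (X k) : FL ((l k).T.rest (E k))) ((l k).T.rmap (E k) (fc (Y k))) / (S.F k).n) =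
      (l.sp.rest E).rt X Y := by
    funext k
    rw [FSp.rmap_fc, h_fc]
    show ((l k).T.rest (E k)).e (X k) (Y k ⊓ (l k).T.Z) / (S.F k).n =
      ((l k).T.rest (E k)).e (X k) (Y k ⊓ (l k).T.Z) / (l k).T.n
    rw [(l k).hn]
  unfold Nul Kn0
  rw [e]

theorem kn0_ovr {S : Sp} (l : Lab S) {e : ℝ} (he : 0 < e) (X Y : ∀ k, Setoid (l.sp.F k).Ω) :
    Kn0 (l.ovr e he) X Y ↔ Kn0 l.sp X (fun k => Y k ⊓ l.V k) := by
  have e1 : (l.ovr e he).rt X Y = fun k => l.sp.rt X (fun k => Y k ⊓ l.V k) k / e :=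
    funext fun k => chg_rt l.V e he X Y k
  unfold Kn0
  rw [e1]
  constructor
  · intro h
    have h1 := h.const_mul e
    rw [mul_zero] at h1
    refine h1.congr fun k => ?_
    field_simp
  · intro h
    have h1 := h.div_const e
    rw [zero_div] at h1
    exact h1

theorem kn0_ovr_rest {S : Sp} (l : Lab S) {e : ℝ} (he : 0 < e) (E : ∀ k, (l.sp.F k).Ω → Prop)
    (X Y : ∀ k, Setoid (l.sp.F k).Ω) :
    Kn0 ((l.ovr e he).rest E) X Y ↔ Kn0 (l.sp.rest E) X (fun k => Y k ⊓ l.V k) := by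
  have e1 : ((l.ovr e he).rest E).rt X Y = fun k => (l.sp.rest E).rt X (fun k => Y k ⊓ l.V k) k / e := by
    funext k
    show ((l k).T.rest (E k)).e (X k) (Y k ⊓ ((l k).V ⊓ (l k).T.Z)) / (e * (l k).T.n) =
      ((l k).T.rest (E k)).e (X k) ((Y k ⊓ (l k).V) ⊓ (l k).T.Z) / (l k).T.n / e
    rw [inf_assoc, div_div, mul_comm (l k).T.n e]
  unfold Kn0
  rw [e1]
  constructor
  · intro h
    have h1 := h.const_mul e
    rw [mul_zero] at h1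
    refine h1.congr fun k => ?_
    field_simp
  · intro h
    have h1 := h.div_const e
    rw [zero_div] at h1
    exact h1

theorem rpI_im_Bd {S T : Sp} (p : Pj T S) (E : ∀ k, (T.F k).Ω → Prop) (A : S.Inf) : ((rpI A).im p E).Bd :=
  pof_Bd (Sp.im_VB p E A.2)

/-! ### agreement in the space over the label -/

/-- what is known to `Vs` on an event and literal in `YB ≤ b` is known on the event to a saturated `K` -/
theorem known_of_sat {U : Sp} {YB : ∀ k, Setoid (U.F k).Ω} (hYV : U.VB YB) (b : U.L) (hb : cl (⟨YB, hYV⟩ : U.Inf) ≤ b)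
    {Vs K : ∀ k, Setoid (U.F k).Ω} (hK : ∀ X : U.Inf, cl X ≤ b → Kn0 U X.1 Vs → Kn0 U X.1 K)
    (E : ∀ k, (U.F k).Ω → Prop) (hE : 0 < ul (U.pr E)) {W : ∀ k, Setoid (U.F k).Ω}
    (h1 : Kn0 (U.rest E) W Vs) (h2 : LeS U YB W) : Kn0 (U.rest E) W K := by
  have h3 : Cr YB (star E W) := Cr_star E (Cr_of_leS h2)
  have h4 : U.VB (star E W) := h3.VB hYV
  have h5 : Kn0 U (star E W) Vs := kn0_star_of_rest E h1
  have h3' : cl (⟨star E W, h4⟩ : U.Inf) ≤ cl (⟨YB, hYV⟩ : U.Inf) := le_iff_kn0.mpr h3.kn0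
  have h6 : Kn0 U (star E W) K := hK ⟨star E W, h4⟩ (h3'.trans hb) h5
  have h7 : Kn0 (U.rest E) (star E W) K := kn0_rest E hE h4 h6
  have h8 : Kn0 (U.rest E) W (star E W) := LeS.kn0 (T := U.rest E) (star_leS E hE W).1
  exact Kn0.trans (T := U.rest E) h8 h7

section lvl

variable {S : Sp} (l : Lab S) (AI BI : S.Inf) (Vs : ∀ k, Setoid (l.sp.F k).Ω) (hsl : ∀ k, Vs k ≤ l.V k)
  (hs : (wV l Vs).IsMax (rpI AI) (rpI BI)) {e : ℝ} (he : 0 < e)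
  (YA YB : ∀ k, Setoid (l.sp.F k).Ω)
  (hYA : Kn0 (l.ovr e he) YA (fun k => Vs k ⊓ Setoid.comap (l.pj.π k) (AI.1 k)))
  (hYB : Kn0 (l.ovr e he) YB (fun k => Setoid.comap (l.pj.π k) (BI.1 k)))

include hsl hs hYA hYB in
/-- the rounding is known to the label -/
theorem agr_lvl {ι : Type} [Fintype ι] (E : ∀ k, (l.sp.F k).Ω → Prop) (hE : 0 < ul ((l.ovr e he).pr E))
    (gA gB : ∀ k, (l.sp.F k).Ω → ι → ℝ) (ρ : ℕ → ℝ) (hρ : ∀ k, 0 < ρ k)
    (hA : LeS (l.ovr e he) YA (fun k => Setoid.ker (gA k)))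
    (hB : LeS (l.ovr e he) YB (fun k => Setoid.ker (gB k)))
    (hcl : ∀ᶠ k in UF, ∀ ω, (l.sp.F k).μ ω ≠ 0 → E k ω → ∀ a, |gA k ω a - gB k ω a| ≤ ρ k) :
    Kn0 ((l.ovr e he).rest E) (fun k => Setoid.ker fun ω => rdv (ρ k) (gB k ω)) Vs := by
  obtain ⟨m, hm⟩ : ∃ m, m = wV l Vs := ⟨_, rfl⟩
  have hgA : Kn0 l.sp (fun k => Setoid.ker (gA k)) (fun k => Vs k ⊓ Setoid.comap (l.pj.π k) (AI.1 k)) := by
    have h1 := hA.kn0.trans hYA
    rw [kn0_ovr] at h1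
    exact h1.mono_right fun k => le_inf le_rfl (inf_le_left.trans (hsl k))
  have hgB : Kn0 l.sp (fun k => Setoid.ker (gB k)) (fun k => Vs k ⊓ Setoid.comap (l.pj.π k) (BI.1 k)) := by
    have h1 := hB.kn0.trans hYB
    rw [kn0_ovr] at h1
    exact h1.mono_right fun k => le_inf inf_le_right (inf_le_left.trans (hsl k))
  have h3 := agr_im (m := wV l Vs) hs (rpI_Bd AI) (fun E => rpI_im_Bd _ E AI) Vs (fun k => le_rfl) hs.1.2
    gA gB ρ hρ ((nul_iff (wV l Vs) _ _).mpr hgA) ((nul_iff (wV l Vs) _ _).mpr hgB) E hcl hE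
  have h4 := (nul_rest_iff (wV l Vs) E _ _).mp h3
  rw [kn0_ovr_rest]
  exact Kn0.mono_right h4 fun k => inf_le_left

/-- AGREEMENT, exact form: `K` is finer than every information which is known to the point `b` and to `Vs` -/
theorem agr_can (hYV : (l.ovr e he).VB YB) (b : (l.ovr e he).L)
    (hb : cl (⟨YB, hYV⟩ : (l.ovr e he).Inf) ≤ b)
    (K : ∀ k, Setoid (l.sp.F k).Ω)
    (hK : ∀ X : (l.ovr e he).Inf, cl X ≤ b → Kn0 (l.ovr e he) X.1 Vs → Kn0 (l.ovr e he) X.1 K)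
    (hsl : ∀ k, Vs k ≤ l.V k) (hs : (wV l Vs).IsMax (rpI AI) (rpI BI))
    (hYA : Kn0 (l.ovr e he) YA (fun k => Vs k ⊓ Setoid.comap (l.pj.π k) (AI.1 k)))
    (hYB : Kn0 (l.ovr e he) YB (fun k => Setoid.comap (l.pj.π k) (BI.1 k)))
    {ι : Type} [Fintype ι] (E : ∀ k, (l.sp.F k).Ω → Prop) (hE : 0 < ul ((l.ovr e he).pr E))
    (gA gB : ∀ k, (l.sp.F k).Ω → ι → ℝ) (ρ : ℕ → ℝ) (hρ : ∀ k, 0 < ρ k)
    (hA : LeS (l.ovr e he) YA (fun k => Setoid.ker (gA k)))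
    (hB : LeS (l.ovr e he) YB (fun k => Setoid.ker (gB k)))
    (hcl : ∀ᶠ k in UF, ∀ ω, (l.sp.F k).μ ω ≠ 0 → E k ω → ∀ a, |gA k ω a - gB k ω a| ≤ ρ k) :
    Kn0 ((l.ovr e he).rest E) (fun k => Setoid.ker fun ω => rdv (ρ k) (gB k ω)) K := by
  refine known_of_sat hYV b hb hK E hE (agr_lvl l AI BI Vs hsl hs he YA YB hYA hYB E hE gA gB ρ hρ hA hB hcl) ?_
  refine hB.trans (LeS_of_le fun k ω ω' h => ?_)
  have h' : gB k ω = gB k ω' := h
  show rdv (ρ k) (gB k ω) = rdv (ρ k) (gB k ω')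
  rw [h']

end lvl

/-! ### finite form -/

/-- AGREEMENT, finite form, `ι` coordinates -/
def AgrF (ι : Type) (F : FSp) (YA YB K : Setoid F.Ω) (ε η : ℝ) : Prop :=
  ∀ (E : F.Ω → Prop) (gA gB : F.Ω → ι → ℝ) (ρ : ℝ), 0 < ρ → η ≤ F.pb E →
    (∀ ω ω', F.μ ω ≠ 0 → F.μ ω' ≠ 0 → F.Z ω ω' → YA ω ω' → gA ω = gA ω') →
    (∀ ω ω', F.μ ω ≠ 0 → F.μ ω' ≠ 0 → F.Z ω ω' → YB ω ω' → gB ω = gB ω') →
    (∀ ω, F.μ ω ≠ 0 → E ω → ∀ a, |gA ω a - gB ω a| ≤ ρ) →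
    (F.rest E).e (Setoid.ker fun ω => rdv ρ (gB ω)) (K ⊓ F.Z) ≤ ε * F.n

/-- FROM THE EXACT TO THE FINITE FORM -/
theorem agrF_of {T : Sp} {ι : Type} (YA YB K : ∀ k, Setoid (T.F k).Ω)
    (H : ∀ (E : ∀ k, (T.F k).Ω → Prop), 0 < ul (T.pr E) → ∀ (gA gB : ∀ k, (T.F k).Ω → ι → ℝ) (ρ : ℕ → ℝ),
      (∀ k, 0 < ρ k) → LeS T YA (fun k => Setoid.ker (gA k)) → LeS T YB (fun k => Setoid.ker (gB k)) →
      (∀ᶠ k in UF, ∀ ω, (T.F k).μ ω ≠ 0 → E k ω → ∀ a, |gA k ω a - gB k ω a| ≤ ρ k) →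
      Kn0 (T.rest E) (fun k => Setoid.ker fun ω => rdv (ρ k) (gB k ω)) K)
    {ε η : ℝ} (hε : 0 < ε) (hη : 0 < η) : ∀ᶠ k in UF, AgrF ι (T.F k) (YA k) (YB k) (K k) ε η := by
  classical
  by_contra hc
  have hc' : ∀ᶠ k in UF, ¬ AgrF ι (T.F k) (YA k) (YB k) (K k) ε η := Ultrafilter.eventually_not.mpr hc
  have hex : ∀ k, ∃ (E : (T.F k).Ω → Prop) (gA gB : (T.F k).Ω → ι → ℝ) (ρ : ℝ), 0 < ρ ∧
      (¬ AgrF ι (T.F k) (YA k) (YB k) (K k) ε η → η ≤ (T.F k).pb E ∧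
        (∀ ω ω', (T.F k).μ ω ≠ 0 → (T.F k).μ ω' ≠ 0 → (T.F k).Z ω ω' → YA k ω ω' → gA ω = gA ω') ∧
        (∀ ω ω', (T.F k).μ ω ≠ 0 → (T.F k).μ ω' ≠ 0 → (T.F k).Z ω ω' → YB k ω ω' → gB ω = gB ω') ∧
        (∀ ω, (T.F k).μ ω ≠ 0 → E ω → ∀ a, |gA ω a - gB ω a| ≤ ρ) ∧
        ε * (T.F k).n < ((T.F k).rest E).e (Setoid.ker fun ω => rdv ρ (gB ω)) (K k ⊓ (T.F k).Z)) := by
    intro k
    by_cases h : AgrF ι (T.F k) (YA k) (YB k) (K k) ε η
    · exact ⟨fun _ => True, fun _ _ => 0, fun _ _ => 0, 1, one_pos, fun h' => absurd h h'⟩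
    · have h' := h
      unfold AgrF at h'
      push Not at h'
      obtain ⟨E, gA, gB, ρ, h1, h2, h3, h4, h5, h6⟩ := h'
      exact ⟨E, gA, gB, ρ, h1, fun _ => ⟨h2, h3, h4, h5, h6⟩⟩
  choose E gA gB ρ hρ hx using hex
  have hpE : η ≤ ul (T.pr E) := by
    refine const_le_ul (UB_pr E) ?_
    filter_upwards [hc'] with k hk
    exact (hx k hk).1
  have h1 := H E (lt_of_lt_of_le hη hpE) gA gB ρ hρ
    (by unfold LeS; filter_upwards [hc'] with k hk using (hx k hk).2.1)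
    (by unfold LeS; filter_upwards [hc'] with k hk using (hx k hk).2.2.1)
    (by filter_upwards [hc'] with k hk using (hx k hk).2.2.2.1)
  have h2 : Tendsto ((T.rest E).rt (fun k => Setoid.ker fun ω => rdv (ρ k) (gB k ω)) K) UF (𝓝 0) := h1
  have h3 : ∀ᶠ k in UF, ε < (T.rest E).rt (fun k => Setoid.ker fun ω => rdv (ρ k) (gB k ω)) K k := by
    filter_upwards [hc'] with k hk
    have h4 := (hx k hk).2.2.2.2
    show ε < ((T.F k).rest (E k)).e (Setoid.ker fun ω => rdv (ρ k) (gB k ω)) (K k ⊓ (T.F k).Z) / (T.F k).n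
    rw [lt_div_iff₀ (T.F k).pos]
    exact h4
  obtain ⟨k, h5, h6⟩ := ((h2.eventually (gt_mem_nhds hε)).and h3).exists
  linarith

/-- FROM THE FINITE TO THE EXACT FORM -/
theorem of_agrF {T : Sp} {ι : Type} (YA YB K : ∀ k, Setoid (T.F k).Ω)
    (H : ∀ ε η : ℝ, 0 < ε → 0 < η → ∀ᶠ k in UF, AgrF ι (T.F k) (YA k) (YB k) (K k) ε η)
    (E : ∀ k, (T.F k).Ω → Prop) (hE : 0 < ul (T.pr E)) (gA gB : ∀ k, (T.F k).Ω → ι → ℝ) (ρ : ℕ → ℝ)
    (hρ : ∀ k, 0 < ρ k) (hA : LeS T YA (fun k => Setoid.ker (gA k))) (hB : LeS T YB (fun k => Setoid.ker (gB k)))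
    (hcl : ∀ᶠ k in UF, ∀ ω, (T.F k).μ ω ≠ 0 → E k ω → ∀ a, |gA k ω a - gB k ω a| ≤ ρ k) :
    Kn0 (T.rest E) (fun k => Setoid.ker fun ω => rdv (ρ k) (gB k ω)) K := by
  unfold Kn0
  rw [Metric.tendsto_nhds]
  intro ε hε
  have h1 := H (ε / 2) (ul (T.pr E) / 2) (half_pos hε) (half_pos hE)
  unfold LeS at hA hB
  filter_upwards [h1, hA, hB, hcl, pr_half' hE] with k h2 h3 h4 h5 h6
  have h7 := h2 (E k) (gA k) (gB k) (ρ k) (hρ k) h6 h3 h4 h5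
  rw [Real.dist_eq, sub_zero, abs_of_nonneg (rt_nonneg _ _ k)]
  show ((T.F k).rest (E k)).e (Setoid.ker fun ω => rdv (ρ k) (gB k ω)) (K k ⊓ (T.F k).Z) / (T.F k).n < ε
  rw [div_lt_iff₀ (T.F k).pos]
  have h8 := mul_pos hε (T.F k).pos
  linarith

end

end Pool.Agent.Helper71.AGR
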