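import Pool.Agent.Helper71.AGR.Lvl
import Pool.Agent.Helper80.HCI.Agr

/-! AGREEMENT FOR THE LABELS THEMSELVES (partitions of arbitrary entropy), in the form of helper80's `AGr`: in the space
`l.ovr e` over the label `l`, a function of `(YA, Vs)` and a function of `(YB, VN)` which are close on an event: the
rounding is known on the event to the label `Vs`. `VN` is a finer label without leak at the point. -/

set_option autoImplicit false

namespace Pool.Agent.Helper71.AGR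

open Finset Filter Topology Pool.Agent.Helper69.RK Pool.Agent.Helper31.EC Pool.Agent.Helper31.EC.Sp
open Pool.Agent.Helper40.EL Pool.Agent.Helper99.EC Pool.Agent.Helper80.HCI

noncomputable section

theorem LeS_rest {T : Sp} {A B : ∀ k, Setoid (T.F k).Ω} (h : LeS T A B) (E : ∀ k, (T.F k).Ω → Prop) :
    LeS (T.rest E) A B := by
  unfold LeS at h ⊢
  filter_upwards [h] with k hk ω ω' a b c d
  exact hk ω ω' ((T.F k).rest_supp (E k) ω a).1 ((T.F k).rest_supp (E k) ω' b).1 c d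

section raw

variable {S : Sp} (l : Lab S) (AI BI : S.Inf) (Vs VN : ∀ k, Setoid (l.sp.F k).Ω) (hsl : ∀ k, Vs k ≤ l.V k)
  (hNs : ∀ k, VN k ≤ Vs k) (hs : (wV l Vs).IsMax (rpI AI) (rpI BI))
  (hN : Nul S (fun k => ((wV l VN) k).leak ((rpI BI) k))) {e : ℝ} (he : 0 < e)

include hsl hNs hs hN in
/-- the rounding is known to the label; the second function may use a finer label -/
theorem agr_lvl2 (YA YB : ∀ k, Setoid (l.sp.F k).Ω)
    (hYA : Kn0 (l.ovr e he) YA (fun k => Vs k ⊓ Setoid.comap (l.pj.π k) (AI.1 k)))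
    (hYB : Kn0 (l.ovr e he) YB (fun k => VN k ⊓ Setoid.comap (l.pj.π k) (BI.1 k)))
    {ι : Type} [Fintype ι] (E : ∀ k, (l.sp.F k).Ω → Prop) (hE : 0 < ul ((l.ovr e he).pr E))
    (gA gB : ∀ k, (l.sp.F k).Ω → ι → ℝ) (ρ : ℕ → ℝ) (hρ : ∀ k, 0 < ρ k)
    (hA : LeS (l.ovr e he) YA (fun k => Setoid.ker (gA k)))
    (hB : LeS (l.ovr e he) YB (fun k => Setoid.ker (gB k)))
    (hcl : ∀ᶠ k in UF, ∀ ω, (l.sp.F k).μ ω ≠ 0 → E k ω → ∀ a, |gA k ω a - gB k ω a| ≤ ρ k) :
    Kn0 ((l.ovr e he).rest E) (fun k => Setoid.ker fun ω => rdv (ρ k) (gB k ω)) Vs := by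
  have hgA : Kn0 l.sp (fun k => Setoid.ker (gA k)) (fun k => Vs k ⊓ Setoid.comap (l.pj.π k) (AI.1 k)) := by
    have h1 := hA.kn0.trans hYA
    rw [kn0_ovr] at h1
    exact h1.mono_right fun k => le_inf le_rfl (inf_le_left.trans (hsl k))
  have hgB : Kn0 l.sp (fun k => Setoid.ker (gB k)) (fun k => VN k ⊓ Setoid.comap (l.pj.π k) (BI.1 k)) := by
    have h1 := hB.kn0.trans hYB
    rw [kn0_ovr] at h1
    exact h1.mono_right fun k => le_inf le_rfl (inf_le_left.trans ((hNs k).trans (hsl k)))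
  have h3 := agr_im (m := wV l Vs) hs (rpI_Bd AI) (fun E => rpI_im_Bd _ E AI) VN hNs hN
    gA gB ρ hρ ((nul_iff (wV l Vs) _ _).mpr hgA) ((nul_iff (wV l Vs) _ _).mpr hgB) E hcl hE
  have h4 := (nul_rest_iff (wV l Vs) E _ _).mp h3
  rw [kn0_ovr_rest]
  exact Kn0.mono_right h4 fun k => inf_le_left

include hsl hNs hs hN in
/-- AGREEMENT FOR THE LABELS -/
theorem agr_raw {α β γ : ℕ → Type} (YA : ∀ k, (l.sp.F k).Ω → α k) (YB : ∀ k, (l.sp.F k).Ω → β k)
    (K : ∀ k, (l.sp.F k).Ω → γ k)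
    (hYA : Kn0 (l.ovr e he) (fun k => Setoid.ker (YA k)) (fun k => Vs k ⊓ Setoid.comap (l.pj.π k) (AI.1 k)))
    (hYB : Kn0 (l.ovr e he) (fun k => Setoid.ker (YB k)) (fun k => VN k ⊓ Setoid.comap (l.pj.π k) (BI.1 k)))
    (hK : LeS (l.ovr e he) (fun k => Setoid.ker (K k)) Vs) :
    AGr (S := l.ovr e he) YA YB K := by
  intro E gA gB δ r hE hr0 hr hδ hA hB hcl η hη
  have h1 : Kn0 ((l.ovr e he).rest E)
      (fun k => Setoid.ker fun ω => rdv ((l.ovr e he).dl r k) (fun _ : Fin 1 => gB k ω)) Vs := by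
    refine agr_lvl2 l AI BI Vs VN hsl hNs hs hN he _ _ hYA hYB (ι := Fin 1) E hE
      (fun k ω _ => gA k ω) (fun k ω _ => gB k ω) ((l.ovr e he).dl r) (fun k => (l.ovr e he).dl_pos r k) ?_ ?_ ?_
    · unfold LeS
      filter_upwards [hA] with k hk ω ω' a b c d
      exact funext fun _ => hk ω ω' a b c d
    · unfold LeS
      filter_upwards [hB] with k hk ω ω' a b c d
      exact funext fun _ => hk ω ω' a b c d
    · filter_upwards [hcl] with k hk ω a b _
      refine (hk ω a b).trans ?_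
      exact (l.ovr e he).dl_anti hr.le k
  have h2 : Kn0 ((l.ovr e he).rest E)
      (fun k => Setoid.ker fun ω => rdv ((l.ovr e he).dl r k) (fun _ : Fin 1 => gB k ω))
      (fun k => Setoid.ker (K k)) := by
    refine Kn0.trans (T := (l.ovr e he).rest E) h1 ?_
    exact LeS.kn0 (T := (l.ovr e he).rest E) (LeS_rest hK E)
  have h3 : Tendsto (((l.ovr e he).rest E).rt
      (fun k => Setoid.ker fun ω => rdv ((l.ovr e he).dl r k) (fun _ : Fin 1 => gB k ω))
      (fun k => Setoid.ker (K k))) UF (𝓝 0) := h2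
  filter_upwards [h3.eventually (gt_mem_nhds hη)] with k hk
  have h4 : (((l.ovr e he).F k).rest (E k)).e
      (Setoid.ker fun ω => rdv ((l.ovr e he).dl r k) (fun _ : Fin 1 => gB k ω))
      (Setoid.ker (K k) ⊓ ((l.ovr e he).F k).Z) / ((l.ovr e he).F k).n < η := hk
  rw [div_lt_iff₀ ((l.ovr e he).F k).pos] at h4
  refine le_of_eq_of_le ?_ h4.le
  symm
  apply FSp.e_congr
  · intro ω ω' _ _
    show rdv ((l.ovr e he).dl r k) (fun _ : Fin 1 => gB k ω') =
      rdv ((l.ovr e he).dl r k) (fun _ : Fin 1 => gB k ω) ↔ _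
    constructor
    · intro h
      exact congrFun h 0
    · intro h
      exact funext fun _ => h
  · intro ω ω' _ _
    rw [Prod.mk.injEq]
    exact and_congr Iff.rfl Quotient.eq.symm

end raw

end

end Pool.Agent.Helper71.AGR
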