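import Pool.Agent.Helper71.AGR.Sat

/-! REPRESENTATION: an information which is known to `Y` in rates has a representative which has few values given `Y`
(information density). The GREATEST information known to `Y` and to a partition `V` of arbitrary entropy. -/

set_option autoImplicit false

namespace Pool.Agent.Helper71.AGR

open Finset Filter Topology Pool.Agent.Helper69.RK Pool.Agent.Helper31.EC Pool.Agent.Helper31.EC.Sp

noncomputable section

theorem pr_pos' {Ω α : Type} [Fintype Ω] (μ : Ω → ℝ) (h0 : ∀ ω, 0 ≤ μ ω) (f : Ω → α) (ω : Ω) (h : μ ω ≠ 0) :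
    0 < pr μ f ω := by
  classical
  have h1 : μ ω ≤ pr μ f ω := by
    unfold Pool.Agent.Helper69.RK.pr
    have h2 : μ ω = (if f ω = f ω then μ ω else 0) := by rw [if_pos rfl]
    rw [h2]
    refine le_trans (le_of_eq ?_) (Finset.single_le_sum (f := fun ω' => if f ω' = f ω then μ ω' else 0) (fun ω' _ => ?_)
      (Finset.mem_univ ω))
    · simp
    · split_ifs
      · exact h0 ω'
      · exact le_rfl
  exact lt_of_lt_of_le (lt_of_le_of_ne (h0 ω) (Ne.symm h)) h1

theorem pr_pair_le {Ω α β : Type} [Fintype Ω] (μ : Ω → ℝ) (h0 : ∀ ω, 0 ≤ μ ω) (f : Ω → α) (g : Ω → β) (ω : Ω) :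
    pr μ (fun ω' => (f ω', g ω')) ω ≤ pr μ g ω := by
  classical
  unfold Pool.Agent.Helper69.RK.pr
  apply Finset.sum_le_sum
  intro ω' _
  by_cases h : (f ω', g ω') = (f ω, g ω)
  · rw [if_pos h, if_pos (Prod.mk.inj h).2]
  · rw [if_neg h]
    split_ifs
    · exact h0 ω'
    · exact le_rfl

/-- INFORMATION DENSITY: outside a set of mass `CH / M` every cell of `g` meets at most `2 ^ M` cells of `f` -/
theorem dens {Ω α β : Type} [Fintype Ω] (μ : Ω → ℝ) (h0 : ∀ ω, 0 ≤ μ ω) (f : Ω → α) (g : Ω → β) (M : ℝ) :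
    ∃ D : Ω → Prop, mass (res μ (fun ω => ¬ D ω)) * M ≤ CH μ f g ∧
      ∀ ω, μ ω ≠ 0 → ∀ (N : ℕ) (w : Fin N → Ω), (∀ i, (μ (w i) ≠ 0 ∧ g (w i) = g ω) ∧ D (w i)) →
        (∀ i j, f (w i) = f (w j) → i = j) → (N : ℝ) ≤ 2 ^ M := by
  classical
  set d : Ω → ℝ := fun ω => Real.logb 2 (pr μ g ω) - Real.logb 2 (pr μ (fun ω' => (f ω', g ω')) ω) with hd
  refine ⟨fun ω => d ω ≤ M, ?_, ?_⟩
  · unfold mass CH
    rw [Finset.sum_mul]
    apply Finset.sum_le_sum
    intro ω _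
    by_cases hω : μ ω = 0
    · rw [hω, zero_mul]
      unfold res
      split_ifs
      · rw [hω, zero_mul]
      · rw [zero_mul]
    · have hp1 := pr_pos' μ h0 (fun ω' => (f ω', g ω')) ω hω
      have hp2 := pr_pair_le μ h0 f g ω
      have hd0 : 0 ≤ d ω := by
        have := Real.logb_le_logb_of_le (b := 2) (by norm_num) hp1 hp2
        show 0 ≤ Real.logb 2 (pr μ g ω) - Real.logb 2 (pr μ (fun ω' => (f ω', g ω')) ω)
        linarith
      by_cases hD : d ω ≤ M
      · rw [res_neg (E := fun ω => ¬ d ω ≤ M) _ _ (fun h => h hD), zero_mul]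
        exact mul_nonneg (h0 ω) hd0
      · rw [res_pos (E := fun ω => ¬ d ω ≤ M) _ _ hD]
        exact mul_le_mul_of_nonneg_left (not_le.mp hD).le (h0 ω)
  · intro ω hω N w hw1 hw2
    obtain ⟨Q, hQ⟩ : ∃ Q, Q = ((univ : Finset Ω).filter (fun ω' => (μ ω' ≠ 0 ∧ g ω' = g ω) ∧ d ω' ≤ M)).image f :=
      ⟨_, rfl⟩
    have hNQ : (N : ℝ) ≤ Q.card := by
      have h1 : ((univ : Finset (Fin N)).image (fun i => f (w i))).card = N := by
        rw [Finset.card_image_of_injective _ (fun i j h => hw2 i j h), Finset.card_univ, Fintype.card_fin]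
      have h2 : ((univ : Finset (Fin N)).image (fun i => f (w i))) ⊆ Q := by
        intro a ha
        rw [Finset.mem_image] at ha
        obtain ⟨i, -, rfl⟩ := ha
        rw [hQ]
        exact Finset.mem_image_of_mem _ (Finset.mem_filter.mpr ⟨Finset.mem_univ _, hw1 i⟩)
      have h3 := Finset.card_le_card h2
      rw [h1] at h3
      exact_mod_cast h3
    refine hNQ.trans ?_
    have hgp := pr_pos' μ h0 g ω hω
    have hq : ∀ q ∈ Q, pr μ g ω * 2 ^ (-M) ≤ ∑ ω', (if f ω' = q ∧ g ω' = g ω then μ ω' else 0) := by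
      intro q hq
      rw [hQ, Finset.mem_image] at hq
      obtain ⟨w, hw, rfl⟩ := hq
      rw [Finset.mem_filter] at hw
      obtain ⟨-, ⟨hw1, hw2⟩, hw3⟩ := hw
      have e1 : Pool.Agent.Helper69.RK.pr μ g w = Pool.Agent.Helper69.RK.pr μ g ω := by
        unfold Pool.Agent.Helper69.RK.pr
        rw [hw2]
      have e2 : pr μ (fun ω' => (f ω', g ω')) w = ∑ ω', (if f ω' = f w ∧ g ω' = g ω then μ ω' else 0) := by
        unfold Pool.Agent.Helper69.RK.pr
        apply Finset.sum_congr rfl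
        intro ω' _
        by_cases h : f ω' = f w ∧ g ω' = g ω
        · rw [if_pos h, if_pos (by rw [Prod.mk.injEq]; exact ⟨h.1, h.2.trans hw2.symm⟩)]
        · rw [if_neg h, if_neg (by rw [Prod.mk.injEq]; exact fun h' => h ⟨h'.1, h'.2.trans hw2⟩)]
      rw [← e2, ← e1]
      have hp1 := pr_pos' μ h0 (fun ω' => (f ω', g ω')) w hw1
      have hp2 := pr_pos' μ h0 g w hw1
      have h3 : Real.logb 2 (pr μ g w) - Real.logb 2 (pr μ (fun ω' => (f ω', g ω')) w) ≤ M := hw3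
      have h4 : Real.logb 2 (pr μ g w * 2 ^ (-M)) ≤ Real.logb 2 (pr μ (fun ω' => (f ω', g ω')) w) := by
        rw [Real.logb_mul hp2.ne' (by positivity), Real.logb_rpow (by norm_num) (by norm_num)]
        linarith
      exact (Real.logb_le_logb (by norm_num) (by positivity) hp1).mp h4
    have hs : ∑ q ∈ Q, ∑ ω', (if f ω' = q ∧ g ω' = g ω then μ ω' else 0) ≤ pr μ g ω := by
      rw [Finset.sum_comm]
      unfold Pool.Agent.Helper69.RK.pr
      apply Finset.sum_le_sum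
      intro ω' _
      by_cases h : g ω' = g ω
      · rw [if_pos h]
        by_cases h2 : f ω' ∈ Q
        · rw [Finset.sum_eq_single (f ω')]
          · rw [if_pos ⟨rfl, h⟩]
          · intro q _ hq
            rw [if_neg (fun h' => hq h'.1.symm)]
          · intro h'
            exact absurd h2 h'
        · rw [Finset.sum_eq_zero]
          · exact h0 ω'
          · intro q hq
            refine if_neg (fun h' : f ω' = q ∧ g ω' = g ω => h2 ?_)
            rw [h'.1]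
            exact hq
      · rw [if_neg h, Finset.sum_eq_zero]
        intro q _
        exact if_neg (fun h' : f ω' = q ∧ g ω' = g ω => h h'.2)
    have h5 := (Finset.sum_le_sum hq).trans hs
    rw [Finset.sum_const, nsmul_eq_mul] at h5
    have h6 : (Q.card : ℝ) * 2 ^ (-M) ≤ 1 := by
      by_contra hc
      push Not at hc
      nlinarith
    rw [Real.rpow_neg (by norm_num)] at h6
    have h7 : (0 : ℝ) < 2 ^ M := by positivity
    rw [← div_eq_mul_inv, div_le_one h7] at h6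
    exact h6

variable {T : Sp}

/-- the partition `X` on the event `D`, one cell outside -/
def starF (F : FSp) (D : F.Ω → Prop) (X : Setoid F.Ω) : Setoid F.Ω where
  r := fun ω ω' => (D ω ∧ D ω' ∧ X ω ω') ∨ (¬ D ω ∧ ¬ D ω')
  iseqv := by
    constructor
    · intro ω
      by_cases h : D ω
      · exact Or.inl ⟨h, h, X.refl ω⟩
      · exact Or.inr ⟨h, h⟩
    · rintro ω ω' (⟨a, b, c⟩ | ⟨a, b⟩)
      · exact Or.inl ⟨b, a, X.symm c⟩
      · exact Or.inr ⟨b, a⟩
    · rintro ω ω' ω'' (⟨a, b, c⟩ | ⟨a, b⟩) (⟨d, e, f⟩ | ⟨d, e⟩)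
      · exact Or.inl ⟨a, e, X.trans c f⟩
      · exact absurd b d
      · exact absurd d b
      · exact Or.inr ⟨a, e⟩

/-- the partition `X` on the event `D`, one cell outside -/
def star (D : ∀ k, (T.F k).Ω → Prop) (X : ∀ k, Setoid (T.F k).Ω) (k : ℕ) : Setoid (T.F k).Ω :=
  starF (T.F k) (D k) (X k)

theorem inf_evp_le_star (D : ∀ k, (T.F k).Ω → Prop) (X : ∀ k, Setoid (T.F k).Ω) (k : ℕ) :
    X k ⊓ evp D k ≤ star D X k := by
  intro ω ω' h
  have h2 : D k ω = D k ω' := h.2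
  by_cases hD : D k ω
  · exact Or.inl ⟨hD, by rw [← h2]; exact hD, h.1⟩
  · exact Or.inr ⟨hD, by rw [← h2]; exact hD⟩

theorem star_kn0 (D : ∀ k, (T.F k).Ω → Prop) (X : ∀ k, Setoid (T.F k).Ω) : Kn0 T (star D X) X :=
  ((Kn0_of_le (A := X) (B := X) fun _ => le_rfl).inf ((Few_evp D).kn0 X)).mono_left (inf_evp_le_star D X)

theorem Cr_star (D : ∀ k, (T.F k).Ω → Prop) {X Y : ∀ k, Setoid (T.F k).Ω} (h : Cr Y X) : Cr Y (star D X) :=
  (h.inf (Cr_of_few (Few_evp D))).mono (LeS_of_le (inf_evp_le_star D X))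

/-- on a typical event nothing is lost -/
theorem kn0_star_typ {D : ∀ k, (T.F k).Ω → Prop} (hD : Typ D) {X : ∀ k, Setoid (T.F k).Ω} (hX : T.VB X) :
    Kn0 T X (star D X) := by
  have h1 := ul_rt_typ D hD (⟨X, hX⟩ : T.Inf) (star D X)
  have h2 : ((T.rest D).rt X (star D X)) =ᶠ[UF] fun _ => 0 := by
    have h3 := (Typ_iff D).mp hD
    filter_upwards [h3.eventually (lt_mem_nhds one_half_lt_one)] with k hk
    have hk' : (T.F k).pb (D k) ≠ 0 := (lt_trans one_half_pos hk).ne'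
    show ((T.F k).rest (D k)).e (X k) (star D X k ⊓ (T.F k).Z) / (T.F k).n = 0
    rw [((T.F k).rest (D k)).e_zero, zero_div]
    intro ω ω' a b c
    have a' := ((T.F k).rest_supp (D k) ω a).2 hk'
    rcases c.1 with h | h
    · exact h.2.2
    · exact absurd a' h.1
  have h3 : ul (T.rt X (star D X)) = 0 := by
    have h4 : ul (T.rt X (star D X)) = ul ((T.rest D).rt X (star D X)) := h1.symm
    rw [h4]
    exact ul_eq ((tendsto_congr' h2).mpr tendsto_const_nhds)
  have h5 := ul_tendsto (UB_rt (⟨X, hX⟩ : T.Inf) (star D X))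
  have h6 : ul (T.rt (⟨X, hX⟩ : T.Inf).1 (star D X)) = 0 := h3
  rw [h6] at h5
  exact h5

/-- on the event the star partition is the partition -/
theorem star_leS (E : ∀ k, (T.F k).Ω → Prop) (hE : 0 < ul (T.pr E)) (X : ∀ k, Setoid (T.F k).Ω) :
    LeS (T.rest E) (star E X) X ∧ LeS (T.rest E) X (star E X) := by
  have h1 : Tendsto (T.pr E) UF (𝓝 (ul (T.pr E))) := ul_tendsto (UB_pr E)
  have hev : ∀ᶠ k in UF, (T.F k).pb (E k) ≠ 0 := by
    filter_upwards [h1.eventually (lt_mem_nhds hE)] with k hk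
    exact hk.ne'
  constructor
  · unfold LeS
    filter_upwards [hev] with k hk ω ω' a b _ d
    have a' := ((T.F k).rest_supp (E k) ω a).2 hk
    rcases d with d | d
    · exact d.2.2
    · exact absurd a' d.1
  · unfold LeS
    filter_upwards [hev] with k hk ω ω' a b _ d
    exact Or.inl ⟨((T.F k).rest_supp (E k) ω a).2 hk, ((T.F k).rest_supp (E k) ω' b).2 hk, d⟩

/-- what is known on the event is known as a star partition -/
theorem kn0_star_of_rest (E : ∀ k, (T.F k).Ω → Prop) {X V : ∀ k, Setoid (T.F k).Ω}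
    (h : Kn0 (T.rest E) X V) : Kn0 T (star E X) V := by
  have t : Tendsto (fun k => (T.rest E).rt X V k + 1 / (T.F k).n) UF (𝓝 0) := by
    have := Filter.Tendsto.add (show Tendsto ((T.rest E).rt X V) UF (𝓝 0) from h) (T.div_n_tendsto 1)
    rwa [add_zero] at this
  refine tendsto_of_tendsto_of_tendsto_of_le_of_le tendsto_const_nhds t (fun k => T.rt_nonneg _ _ k) (fun k => ?_)
  refine (rt_split E (star E X) V k).2.trans ?_
  have h1 : T.pr E k * (T.rest E).rt (star E X) V k ≤ (T.rest E).rt X V k := by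
    have h0 : 0 ≤ (T.rest E).rt X V k := rt_nonneg _ _ k
    by_cases hk : (T.F k).pb (E k) = 0
    · have : T.pr E k = 0 := hk
      rw [this, zero_mul]
      exact h0
    · have h2 : (T.rest E).rt (star E X) X k = 0 := by
        show ((T.F k).rest (E k)).e (star E X k) (X k ⊓ (T.F k).Z) / (T.F k).n = 0
        rw [((T.F k).rest (E k)).e_zero, zero_div]
        intro ω ω' a b c
        exact Or.inl ⟨((T.F k).rest_supp (E k) ω a).2 hk, ((T.F k).rest_supp (E k) ω' b).2 hk, c.1⟩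
      have h3 := (T.rest E).rt_triangle (star E X) X V k
      rw [h2, zero_add] at h3
      have h4 : 0 ≤ (T.rest E).rt (star E X) V k := rt_nonneg _ _ k
      exact (mul_le_of_le_one_left h4 (pr_le_one E k)).trans h3
  have h2 : (1 - T.pr E k) * (T.rest (fun k ω => ¬ E k ω)).rt (star E X) V k = 0 := by
    by_cases hk : (T.F k).pb (fun ω => ¬ E k ω) = 0
    · have h3 := (T.F k).pb_add_compl (E k)
      have : T.pr E k = 1 := by
        show (T.F k).pb (E k) = 1
        linarith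
      rw [this, sub_self, zero_mul]
    · have h3 : (T.rest (fun k ω => ¬ E k ω)).rt (star E X) V k = 0 := by
        show ((T.F k).rest (fun ω => ¬ E k ω)).e (star E X k) (V k ⊓ (T.F k).Z) / (T.F k).n = 0
        rw [((T.F k).rest (fun ω => ¬ E k ω)).e_zero, zero_div]
        intro ω ω' a b _
        exact Or.inr ⟨((T.F k).rest_supp _ ω a).2 hk, ((T.F k).rest_supp _ ω' b).2 hk⟩
      rw [h3, mul_zero]
  refine (add_le_add (add_le_add h1 (le_of_eq h2)) le_rfl).trans (le_of_eq ?_)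
  rw [add_zero]

/-- restriction to an event of positive probability -/
theorem kn0_rest (E : ∀ k, (T.F k).Ω → Prop) (hE : 0 < ul (T.pr E)) {X V : ∀ k, Setoid (T.F k).Ω} (hX : T.VB X)
    (h : Kn0 T X V) : Kn0 (T.rest E) X V := by
  have h1 := ul_rt_split E (⟨X, hX⟩ : T.Inf) V
  have h0 : ul (T.rt X V) = 0 := ul_eq h
  have h2 : 0 ≤ ul ((T.rest E).rt X V) :=
    const_le_ul (UB_rt (restI E (⟨X, hX⟩ : T.Inf)) V) (Eventually.of_forall fun k => rt_nonneg _ _ k)
  have h3 : 0 ≤ ul ((T.rest (fun k ω => ¬ E k ω)).rt X V) :=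
    const_le_ul (UB_rt (restI (fun k ω => ¬ E k ω) (⟨X, hX⟩ : T.Inf)) V)
      (Eventually.of_forall fun k => rt_nonneg _ _ k)
  have h4 : ul (T.pr E) ≤ 1 := ul_le_const (UB_pr E) (Eventually.of_forall fun k => pr_le_one E k)
  have h5 : ul ((T.rest E).rt X V) = 0 := by
    have h6 : 0 ≤ (1 - ul (T.pr E)) * ul ((T.rest (fun k ω => ¬ E k ω)).rt X V) := mul_nonneg (by linarith) h3
    have h7 : ul (T.rt X V) = ul (T.pr E) * ul ((T.rest E).rt X V) +
      (1 - ul (T.pr E)) * ul ((T.rest (fun k ω => ¬ E k ω)).rt X V) := h1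
    rw [h0] at h7
    have h8 : ul (T.pr E) * ul ((T.rest E).rt X V) ≤ 0 := by linarith
    nlinarith
  have h9 := ul_tendsto (UB_rt (restI E (⟨X, hX⟩ : T.Inf)) V)
  have h10 : ul ((T.rest E).rt (restI E (⟨X, hX⟩ : T.Inf)).1 V) = 0 := h5
  rw [h10] at h9
  exact h9

/-- counting the cells of a star partition -/
theorem nv_star_le (F : FSp) (D : F.Ω → Prop) (X B : Setoid F.Ω) (M : ℝ) (ω : F.Ω)
    (h : ∀ (N : ℕ) (w : Fin N → F.Ω), (∀ i, (F.μ (w i) ≠ 0 ∧ Quotient.mk B (w i) = Quotient.mk B ω) ∧ D (w i)) →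
      (∀ i j, Quotient.mk X (w i) = Quotient.mk X (w j) → i = j) → (N : ℝ) ≤ M) :
    (nvf F.μ (Quotient.mk (starF F D X)) (Quotient.mk B) ω : ℝ) ≤ M + 1 := by
  classical
  obtain ⟨S, hSdef⟩ : ∃ S, S = starF F D X := ⟨_, rfl⟩
  have hS : ∀ ω ω', (D ω ∧ D ω' ∧ X ω ω') ∨ (¬ D ω ∧ ¬ D ω') → S ω ω' := by
    intro ω ω' h
    rw [hSdef]
    exact h
  rw [← hSdef]
  obtain ⟨Q, hQ⟩ : ∃ Q, Q = ((univ : Finset F.Ω).filter (fun ω' => (F.μ ω' ≠ 0 ∧
    Quotient.mk B ω' = Quotient.mk B ω) ∧ D ω')).image (Quotient.mk X) := ⟨_, rfl⟩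
  have hex : ∀ q : Q, ∃ w, ((F.μ w ≠ 0 ∧ Quotient.mk B w = Quotient.mk B ω) ∧ D w) ∧ Quotient.mk X w = q.1 := by
    rintro ⟨q, hq⟩
    have hq' := hq
    rw [hQ, Finset.mem_image] at hq'
    obtain ⟨w, hw, hwq⟩ := hq'
    exact ⟨w, (Finset.mem_filter.mp hw).2, hwq⟩
  obtain ⟨N, hN⟩ : ∃ N, N = Q.card := ⟨_, rfl⟩
  obtain ⟨e⟩ : Nonempty (Fin N ≃ Q) := ⟨by rw [hN]; exact Q.equivFin.symm⟩
  choose w hw1 hw2 using hex
  have hM : (N : ℝ) ≤ M := by
    apply h N (fun i => w (e i)) (fun i => hw1 (e i))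
    intro i j hij
    rw [hw2, hw2] at hij
    exact e.injective (Subtype.ext hij)
  have h2 := Pool.Agent.Helper40.EL.nvf_le_card F.μ (Quotient.mk S) (Quotient.mk B) ω (N + 1)
    (fun i : Fin (N + 1) => if hi : (i : ℕ) < N then Quotient.mk S (w (e ⟨i, hi⟩))
      else if hd : ∃ w, ¬ D w then Quotient.mk S hd.choose else Quotient.mk S ω) (by
    intro ω' h1 h2
    by_cases hD : D ω'
    · have hq : Quotient.mk X ω' ∈ Q := by
        rw [hQ]
        exact Finset.mem_image_of_mem _ (Finset.mem_filter.mpr ⟨Finset.mem_univ _, ⟨h1, h2⟩, hD⟩)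
      obtain ⟨i, hi⟩ := e.surjective ⟨_, hq⟩
      refine ⟨⟨i.1, by omega⟩, ?_⟩
      rw [dif_pos (show (⟨i.1, by omega⟩ : Fin (N + 1)).1 < N from i.2)]
      apply Quotient.sound
      apply hS
      refine Or.inl ⟨hD, (hw1 _).2, ?_⟩
      have h4 : Quotient.mk X ω' = Quotient.mk X (w (e ⟨i.1, i.2⟩)) := by
        rw [hw2]
        show _ = (e i).1
        rw [hi]
      exact Quotient.exact h4
    · refine ⟨⟨N, by omega⟩, ?_⟩
      have hd : ∃ w, ¬ D w := ⟨ω', hD⟩
      rw [dif_neg (show ¬ (⟨N, by omega⟩ : Fin (N + 1)).1 < N from lt_irrefl _), dif_pos hd]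
      apply Quotient.sound
      apply hS
      exact Or.inr ⟨hD, hd.choose_spec⟩)
  have h3 : (nvf F.μ (Quotient.mk S) (Quotient.mk B) ω : ℝ) ≤ ((N + 1 : ℕ) : ℝ) := by exact_mod_cast h2
  push_cast at h3
  linarith

theorem pow_add_one_le {a ε n : ℝ} (ha : a ≤ ε / 2 * n) (hn : 1 ≤ ε / 2 * n) :
    (2 : ℝ) ^ a + 1 ≤ 2 ^ (ε * n) := by
  have h1 : (2 : ℝ) ^ a ≤ 2 ^ (ε / 2 * n) := Real.rpow_le_rpow_of_exponent_le (by norm_num) ha
  have h2 : (2 : ℝ) ≤ 2 ^ (ε / 2 * n) := by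
    have := Real.rpow_le_rpow_of_exponent_le (x := 2) (by norm_num) hn
    rwa [Real.rpow_one] at this
  have h3 : (2 : ℝ) ^ (ε * n) = 2 ^ (ε / 2 * n) * 2 ^ (ε / 2 * n) := by
    rw [← Real.rpow_add (by norm_num : (0 : ℝ) < 2)]
    congr 1; ring
  rw [h3]
  nlinarith

/-- REPRESENTATION: an information known to `Y` in rates has a representative with few values given `Y` -/
theorem exists_rep {X Y : ∀ k, Setoid (T.F k).Ω} (h : Kn0 T X Y) :
    ∃ D : ∀ k, (T.F k).Ω → Prop, Typ D ∧ Cr Y (star D X) := by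
  classical
  have hd : ∀ N k : ℕ, ∃ D : (T.F k).Ω → Prop,
      mass (res (T.F k).μ (fun ω => ¬ D ω)) * ((T.F k).n / ((N : ℝ) + 1)) ≤ T.rt X Y k * (T.F k).n ∧
      ∀ ω, (T.F k).μ ω ≠ 0 → (nvf (T.F k).μ (Quotient.mk (starF (T.F k) D (X k)))
        (Quotient.mk (Y k ⊓ (T.F k).Z)) ω : ℝ) ≤ 2 ^ ((T.F k).n / ((N : ℝ) + 1)) + 1 := by
    intro N k
    obtain ⟨D, h1, h2⟩ := dens (T.F k).μ (T.F k).nn (Quotient.mk (X k)) (Quotient.mk (Y k ⊓ (T.F k).Z))
      ((T.F k).n / ((N : ℝ) + 1))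
    refine ⟨D, ?_, fun ω hω => nv_star_le (T.F k) D (X k) (Y k ⊓ (T.F k).Z) _ ω (h2 ω hω)⟩
    refine h1.trans (le_of_eq ?_)
    unfold rt
    rw [div_mul_cancel₀ _ (T.F k).pos.ne']
    rfl
  choose D hD1 hD2 using hd
  have hD3 : ∀ N : ℕ, ∀ᶠ k in UF, mass (res (T.F k).μ (fun ω => ¬ D N k ω)) ≤ 1 / ((N : ℝ) + 1) := by
    intro N
    have hN : (0 : ℝ) < (N : ℝ) + 1 := by positivity
    have hpos : (0 : ℝ) < 1 / ((N : ℝ) + 1) ^ 2 := by positivity
    have h1 : Tendsto (T.rt X Y) UF (𝓝 0) := h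
    filter_upwards [h1.eventually (gt_mem_nhds hpos)] with k hk
    have h2 := hD1 N k
    have hn := (T.F k).pos
    have h3 : mass (res (T.F k).μ (fun ω => ¬ D N k ω)) ≤ T.rt X Y k * ((N : ℝ) + 1) := by
      rw [mul_div_assoc', div_le_iff₀ hN] at h2
      have h4 : mass (res (T.F k).μ (fun ω => ¬ D N k ω)) * (T.F k).n ≤ T.rt X Y k * ((N : ℝ) + 1) * (T.F k).n := by
        linarith [h2]
      exact le_of_mul_le_mul_right h4 hn
    refine h3.trans ?_
    have h5 : T.rt X Y k * ((N : ℝ) + 1) ≤ 1 / ((N : ℝ) + 1) ^ 2 * ((N : ℝ) + 1) :=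
      mul_le_mul_of_nonneg_right hk.le hN.le
    refine h5.trans (le_of_eq ?_)
    field_simp
  obtain ⟨J, hJ, hJG⟩ := Pool.Agent.Helper40.EL.dia _ hD3
  have h0 : Tendsto (fun k => 1 / ((J k : ℝ) + 1)) UF (𝓝 0) :=
    tendsto_one_div_add_atTop_nhds_zero_nat.comp hJ
  refine ⟨fun k => D (J k) k, ?_, Cr_of_nv ?_⟩
  · unfold Typ
    refine tendsto_of_tendsto_of_tendsto_of_le_of_le' tendsto_const_nhds h0
      (Eventually.of_forall fun k => mass_res_nonneg k _) ?_
    filter_upwards [hJG] with k hk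
    exact hk (J k) le_rfl
  · intro ε hε
    have h1 : Tendsto (fun k => (T.F k).n) UF atTop := T.lim
    filter_upwards [h0.eventually (gt_mem_nhds (half_pos hε)), h1.eventually (eventually_ge_atTop (2 / ε))]
      with k hk hn ω hω
    refine (hD2 (J k) k ω hω).trans ?_
    apply pow_add_one_le
    · have h2 : (T.F k).n / ((J k : ℝ) + 1) = 1 / ((J k : ℝ) + 1) * (T.F k).n := by ring
      rw [h2]
      exact mul_le_mul_of_nonneg_right hk.le (T.F k).pos.le
    · rw [div_le_iff₀ hε] at hn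
      linarith

end

end Pool.Agent.Helper71.AGR
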