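import Pool.Agent.Helper52.KP.Agr

/-! SATURATED LABELS. `V` a partition of a space (a label, of possibly unbounded entropy), `Y` a partition with few
values. Among the partitions which are coarser than `Y` and known to `V` there is a finest one (in rates). Finite
ordered families: literally nested. -/

set_option autoImplicit false

namespace Pool.Agent.Helper71.AGR

open Finset Filter Topology Pool.Agent.Helper69.RK Pool.Agent.Helper31.EC Pool.Agent.Helper31.EC.Sp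

noncomputable section

variable {T : Sp}

/-- `X` is known to `V` in rates -/
def Kn0 (T : Sp) (X V : ∀ k, Setoid (T.F k).Ω) : Prop := Tendsto (T.rt X V) UF (𝓝 0)

theorem Kn0.of_le {X X' V : ∀ k, Setoid (T.F k).Ω} (h : Kn0 T X V) {e : ℕ → ℝ} (he : Tendsto e UF (𝓝 0))
    (hle : ∀ᶠ k in UF, T.rt X' V k ≤ T.rt X V k + e k) : Kn0 T X' V := by
  have h1 : Tendsto (fun k => T.rt X V k + e k) UF (𝓝 0) := by
    have := Filter.Tendsto.add (show Tendsto (T.rt X V) UF (𝓝 0) from h) he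
    rwa [add_zero] at this
  exact tendsto_of_tendsto_of_tendsto_of_le_of_le' tendsto_const_nhds h1
    (Eventually.of_forall fun k => T.rt_nonneg _ _ k) hle

theorem rt_congr_base (X V : ∀ k, Setoid (T.F k).Ω) (k : ℕ) :
    T.rt X (fun k => T.tr k ⊓ V k) k = T.rt X V k := by
  show (T.F k).e (X k) ((⊤ ⊓ V k) ⊓ (T.F k).Z) / (T.F k).n = (T.F k).e (X k) (V k ⊓ (T.F k).Z) / (T.F k).n
  rw [top_inf_eq]

/-- chain rule over the trivial partition -/
theorem rt_chain_tr (A B : ∀ k, Setoid (T.F k).Ω) (k : ℕ) :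
    T.rt (fun k => A k ⊓ B k) T.tr k = T.rt A T.tr k + T.rt B A k := by
  rw [T.rt_chain A B T.tr k, T.rt_inf_tr A B k]

theorem rt_inf_le (A B C : ∀ k, Setoid (T.F k).Ω) (k : ℕ) :
    T.rt (fun k => A k ⊓ B k) C k ≤ T.rt A C k + T.rt B C k := by
  rw [T.rt_chain A B C k]
  have h1 : T.rt B (fun k => A k ⊓ C k) k ≤ T.rt B C k := T.rt_anti B C (fun k => A k ⊓ C k) k inf_le_right
  linarith

theorem rt_mono_left {A A' : ∀ k, Setoid (T.F k).Ω} (C : ∀ k, Setoid (T.F k).Ω) (k : ℕ) (h : A k ≤ A' k) :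
    T.rt A' C k ≤ T.rt A C k := by
  have h1 := T.rt_triangle A' A C k
  rw [T.rt_zero A' A k h, zero_add] at h1
  exact h1

theorem Kn0.inf {A B V : ∀ k, Setoid (T.F k).Ω} (hA : Kn0 T A V) (hB : Kn0 T B V) :
    Kn0 T (fun k => A k ⊓ B k) V := by
  have h2 : Tendsto (T.rt B V) UF (𝓝 0) := hB
  exact hA.of_le h2 (Eventually.of_forall fun k => rt_inf_le A B V k)

theorem Kn0.mono_left {A A' V : ∀ k, Setoid (T.F k).Ω} (hA : Kn0 T A V) (h : ∀ k, A k ≤ A' k) : Kn0 T A' V := by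
  refine hA.of_le (e := fun _ => 0) tendsto_const_nhds (Eventually.of_forall fun k => ?_)
  rw [add_zero]
  exact rt_mono_left V k (h k)

theorem Kn0.mono_right {A V V' : ∀ k, Setoid (T.F k).Ω} (hA : Kn0 T A V) (h : ∀ k, V' k ≤ V k) : Kn0 T A V' := by
  refine tendsto_of_tendsto_of_tendsto_of_le_of_le tendsto_const_nhds hA (fun k => T.rt_nonneg _ _ k) (fun k => ?_)
  exact T.rt_anti A V V' k (h k)

theorem Kn0.trans {A B C : ∀ k, Setoid (T.F k).Ω} (h1 : Kn0 T A B) (h2 : Kn0 T B C) : Kn0 T A C := by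
  have t : Tendsto (fun k => T.rt A B k + T.rt B C k) UF (𝓝 0) := by
    have := Filter.Tendsto.add (show Tendsto (T.rt A B) UF (𝓝 0) from h1) (show Tendsto (T.rt B C) UF (𝓝 0) from h2)
    rwa [add_zero] at this
  exact tendsto_of_tendsto_of_tendsto_of_le_of_le tendsto_const_nhds t (fun k => T.rt_nonneg _ _ k)
    (fun k => T.rt_triangle A B C k)

theorem Kn0_of_le {A B : ∀ k, Setoid (T.F k).Ω} (h : ∀ k, B k ≤ A k) : Kn0 T A B := by
  have e : T.rt A B = fun _ => 0 := funext fun k => T.rt_zero A B k (h k)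
  unfold Kn0
  rw [e]
  exact tendsto_const_nhds

/-- `B` is a function of `A`, literally, on the support and over the base -/
def LeS (T : Sp) (A B : ∀ k, Setoid (T.F k).Ω) : Prop :=
  ∀ᶠ k in UF, ∀ ω ω', (T.F k).μ ω ≠ 0 → (T.F k).μ ω' ≠ 0 → (T.F k).Z ω ω' → A k ω ω' → B k ω ω'

theorem LeS_of_le {A B : ∀ k, Setoid (T.F k).Ω} (h : ∀ k, A k ≤ B k) : LeS T A B :=
  Eventually.of_forall fun k _ _ _ _ _ g => h k g

theorem LeS.trans {A B C : ∀ k, Setoid (T.F k).Ω} (h : LeS T A B) (h' : LeS T B C) : LeS T A C := by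
  unfold LeS at h h' ⊢
  filter_upwards [h, h'] with k a b ω ω' c d e g using b ω ω' c d e (a ω ω' c d e g)

theorem LeS.inf {A B C : ∀ k, Setoid (T.F k).Ω} (h : LeS T A B) (h' : LeS T A C) :
    LeS T A (fun k => B k ⊓ C k) := by
  unfold LeS at h h' ⊢
  filter_upwards [h, h'] with k a b ω ω' c d e g using ⟨a ω ω' c d e g, b ω ω' c d e g⟩

theorem LeS.kn0 {A B : ∀ k, Setoid (T.F k).Ω} (h : LeS T A B) : Kn0 T B A := by
  unfold LeS at h
  have h1 : T.rt B A =ᶠ[UF] fun _ => 0 := by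
    filter_upwards [h] with k hk
    unfold rt
    rw [(T.F k).e_zero, zero_div]
    intro ω ω' c d e
    exact hk ω ω' c d e.2 e.1
  exact (tendsto_congr' h1).mpr tendsto_const_nhds

theorem Kn0.mono_leS {A A' V : ∀ k, Setoid (T.F k).Ω} (hA : Kn0 T A V) (h : LeS T A A') : Kn0 T A' V :=
  h.kn0.trans hA

/-- growth: at most `2 ^ (C n)` cells in every base cell -/
def Gr (T : Sp) (C : ℝ) (X : ∀ k, Setoid (T.F k).Ω) : Prop :=
  ∀ᶠ k in UF, ∀ ω, (T.F k).μ ω ≠ 0 → (nv (T.F k) (X k) ω : ℝ) ≤ 2 ^ (C * (T.F k).n)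

theorem Gr.VB {C : ℝ} {X : ∀ k, Setoid (T.F k).Ω} (h : Gr T C X) : T.VB X := ⟨C, h⟩

theorem Gr.inf {C D : ℝ} {A B : ∀ k, Setoid (T.F k).Ω} (hA : Gr T C A) (hB : Gr T D B) :
    Gr T (C + D) (fun k => A k ⊓ B k) := by
  unfold Gr at hA hB ⊢
  filter_upwards [hA, hB] with k h1 h2 ω hω
  have h3 := nv_inf (T.F k) (A k) (B k) ω
  have h4 : (nv (T.F k) (A k ⊓ B k) ω : ℝ) ≤ (nv (T.F k) (A k) ω : ℝ) * nv (T.F k) (B k) ω := by
    exact_mod_cast h3
  have h5 : (2 : ℝ) ^ ((C + D) * (T.F k).n) = 2 ^ (C * (T.F k).n) * 2 ^ (D * (T.F k).n) := by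
    rw [← Real.rpow_add (by norm_num : (0 : ℝ) < 2)]
    congr 1; ring
  rw [h5]
  exact h4.trans (mul_le_mul (h1 ω hω) (h2 ω hω) (Nat.cast_nonneg _) (by positivity))

theorem Gr.mono {C : ℝ} {A B : ∀ k, Setoid (T.F k).Ω} (hA : Gr T C A) (h : LeS T A B) : Gr T C B := by
  unfold Gr at hA ⊢
  unfold LeS at h
  filter_upwards [hA, h] with k h1 h2 ω hω
  refine le_trans ?_ (h1 ω hω)
  exact_mod_cast nv_mono (T.F k) ω (fun ω₁ ω₂ a b c d e =>
    h2 ω₁ ω₂ a b ((T.F k).Z.trans c ((T.F k).Z.symm d)) e)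

theorem Gr.rt_le {C : ℝ} {X : ∀ k, Setoid (T.F k).Ω} (h : Gr T C X) : ∀ᶠ k in UF, T.rt X T.tr k ≤ C := by
  classical
  unfold Gr at h
  filter_upwards [h] with k hk
  have hn := (T.F k).pos
  unfold rt
  rw [div_le_iff₀ hn]
  have h0 : (T.F k).e (X k) (T.tr k ⊓ (T.F k).Z) = CH (T.F k).μ (Quotient.mk (X k)) (Quotient.mk (T.F k).Z) := by
    apply (T.F k).e_congr
    · intro ω ω' _ _
      exact (Quotient.eq (r := X k)).symm
    · intro ω ω' _ _
      constructor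
      · intro h
        exact Quotient.sound h.2
      · intro h
        exact ⟨trivial, Quotient.exact h⟩
  rw [h0]
  have h1 := st_E3.1 (T.F k).Ω _ _ (T.F k).μ (Quotient.mk (X k)) (Quotient.mk (T.F k).Z)
    (fun _ => 2 ^ (C * (T.F k).n)) (T.F k).nn (fun ω hω => hk ω hω)
  have h3 : ∑ ω, (T.F k).μ ω * Real.logb 2 (2 ^ (C * (T.F k).n)) = C * (T.F k).n := by
    rw [← Finset.sum_mul, Real.logb_rpow (by norm_num) (by norm_num)]
    have : ∑ ω, (T.F k).μ ω = 1 := (T.F k).ms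
    rw [this, one_mul]
  rw [h3] at h1
  exact h1

/-- few values -/
def Few (T : Sp) (G : ∀ k, Setoid (T.F k).Ω) : Prop := ∀ ε : ℝ, 0 < ε → Gr T ε G

theorem Few.inf {A B : ∀ k, Setoid (T.F k).Ω} (hA : Few T A) (hB : Few T B) : Few T (fun k => A k ⊓ B k) := by
  intro ε hε
  have h1 := (hA (ε / 2) (half_pos hε)).inf (hB (ε / 2) (half_pos hε))
  rwa [add_halves] at h1

/-- a partition with at most `N` cells has few values -/
theorem Few_card (N : ℕ) (G : ∀ k, Setoid (T.F k).Ω) (hG : ∀ k ω, (T.F k).μ ω ≠ 0 → nv (T.F k) (G k) ω ≤ N) :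
    Few T G := by
  intro ε hε
  have h1 : Tendsto (fun k => Real.logb 2 (N + 1) / (T.F k).n) UF (𝓝 0) := T.div_n_tendsto _
  unfold Gr
  filter_upwards [h1.eventually (gt_mem_nhds hε)] with k hk ω hω
  have hn := (T.F k).pos
  rw [div_lt_iff₀ hn] at hk
  have h2 : (nv (T.F k) (G k) ω : ℝ) ≤ N + 1 := by
    have h3 : (nv (T.F k) (G k) ω : ℝ) ≤ N := by exact_mod_cast hG k ω hω
    linarith
  refine h2.trans ?_
  rw [← Real.logb_le_iff_le_rpow (by norm_num) (by positivity)]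
  exact hk.le

theorem Few_tr : Few T T.tr := by
  refine Few_card 1 _ (fun k ω _ => ?_)
  apply Pool.Agent.Helper40.EL.nvf_le_card _ _ _ _ 1 (fun _ => Quotient.mk _ ω)
  intro ω' _ _
  exact ⟨0, Quotient.sound (trivial : (⊤ : Setoid (T.F k).Ω) ω' ω)⟩

/-- the partition of an event -/
def evp (E : ∀ k, (T.F k).Ω → Prop) (k : ℕ) : Setoid (T.F k).Ω := Setoid.ker (E k)

theorem Few_evp (E : ∀ k, (T.F k).Ω → Prop) : Few T (evp E) := by
  classical
  refine Few_card 2 _ (fun k ω _ => ?_)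
  apply Pool.Agent.Helper40.EL.nvf_le_card _ _ _ _ 2 (fun i : Fin 2 =>
    if i = 0 then (if h : ∃ ω', E k ω' then Quotient.mk (evp E k) h.choose else Quotient.mk _ ω)
    else (if h : ∃ ω', ¬ E k ω' then Quotient.mk (evp E k) h.choose else Quotient.mk _ ω))
  intro ω' _ _
  by_cases h : E k ω'
  · refine ⟨0, ?_⟩
    have hex : ∃ ω', E k ω' := ⟨ω', h⟩
    rw [if_pos rfl, dif_pos hex]
    apply Quotient.sound
    show E k ω' = E k hex.choose
    exact propext ⟨fun _ => hex.choose_spec, fun _ => h⟩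
  · refine ⟨1, ?_⟩
    have hex : ∃ ω', ¬ E k ω' := ⟨ω', h⟩
    rw [if_neg (by decide), dif_pos hex]
    apply Quotient.sound
    show E k ω' = E k hex.choose
    exact propext ⟨fun a => absurd a h, fun a => absurd a hex.choose_spec⟩

/-- counting in two steps -/
theorem nvf_le_mul {Ω α β γ : Type} [Fintype Ω] (μ : Ω → ℝ) (f : Ω → α) (y : Ω → β) (g : Ω → γ) (ω : Ω) (N : ℝ)
    (h : ∀ ω', μ ω' ≠ 0 → g ω' = g ω → (nvf μ f (fun w => (y w, g w)) ω' : ℝ) ≤ N) :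
    (nvf μ f g ω : ℝ) ≤ nvf μ y g ω * N := by
  classical
  obtain ⟨S0, hS0⟩ : ∃ S0 : Finset Ω, S0 = univ.filter (fun ω' => μ ω' ≠ 0 ∧ g ω' = g ω) := ⟨_, rfl⟩
  have h1 : nvf μ f g ω = (S0.image f).card := by
    rw [hS0]; rfl
  have h2 : nvf μ y g ω = (S0.image y).card := by
    rw [hS0]; rfl
  rw [h1, h2]
  have h3 : S0.image f ⊆ (S0.image y).biUnion (fun q => (S0.filter (fun ω' => y ω' = q)).image f) := by
    intro a ha
    rw [Finset.mem_image] at ha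
    obtain ⟨ω', hω', rfl⟩ := ha
    rw [Finset.mem_biUnion]
    exact ⟨y ω', Finset.mem_image_of_mem _ hω', Finset.mem_image_of_mem _ (Finset.mem_filter.mpr ⟨hω', rfl⟩)⟩
  have h4 : ((S0.image f).card : ℝ) ≤ ∑ q ∈ S0.image y, (((S0.filter (fun ω' => y ω' = q)).image f).card : ℝ) := by
    have := (Finset.card_le_card h3).trans Finset.card_biUnion_le
    exact_mod_cast this
  refine h4.trans ?_
  have h5 : ∀ q ∈ S0.image y, (((S0.filter (fun ω' => y ω' = q)).image f).card : ℝ) ≤ N := by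
    intro q hq
    rw [Finset.mem_image] at hq
    obtain ⟨ω', hω', rfl⟩ := hq
    have hm : μ ω' ≠ 0 ∧ g ω' = g ω := by
      rw [hS0] at hω'
      exact (Finset.mem_filter.mp hω').2
    refine le_trans (le_of_eq ?_) (h ω' hm.1 hm.2)
    unfold nvf
    apply congrArg (fun s : Finset α => (s.card : ℝ))
    ext a
    rw [Finset.mem_image, Finset.mem_image]
    simp only [hS0, Finset.mem_filter, Finset.mem_univ, true_and, Prod.mk.injEq]
    constructor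
    · rintro ⟨w, ⟨⟨a1, a2⟩, a3⟩, rfl⟩
      exact ⟨w, ⟨a1, a3, a2.trans hm.2.symm⟩, rfl⟩
    · rintro ⟨w, ⟨a1, a2, a3⟩, rfl⟩
      exact ⟨w, ⟨⟨a1, a3.trans hm.2⟩, a2⟩, rfl⟩
  refine (Finset.sum_le_sum h5).trans (le_of_eq ?_)
  rw [Finset.sum_const, nsmul_eq_mul]

/-- counting in two steps, partitions -/
theorem nv_le_mul (F : FSp) (X Y : Setoid F.Ω) (ω : F.Ω) (N : ℝ)
    (h : ∀ ω', F.μ ω' ≠ 0 → (nv (F.chg Y 1 one_pos) X ω' : ℝ) ≤ N) : (nv F X ω : ℝ) ≤ nv F Y ω * N := by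
  apply nvf_le_mul F.μ (Quotient.mk X) (Quotient.mk Y) (Quotient.mk F.Z) ω N
  intro ω' h1 _
  refine le_trans ?_ (h ω' h1)
  have h2 : nvf F.μ (Quotient.mk X) (fun w => (Quotient.mk Y w, Quotient.mk F.Z w)) ω' ≤
      nvf F.μ (Quotient.mk X) (Quotient.mk (Y ⊓ F.Z)) ω' := by
    apply nvf_le_of_rel
    intro ω₁ _ e
    rw [Prod.mk.injEq] at e
    exact Quotient.sound (show (Y ⊓ F.Z) ω₁ ω' from ⟨Quotient.exact e.1, Quotient.exact e.2⟩)
  have h3 : nvf F.μ (Quotient.mk X) (fun w => (Quotient.mk Y w, Quotient.mk F.Z w)) ω' ≤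
      nv (F.chg Y 1 one_pos) X ω' := h2
  exact_mod_cast h3

/-- `X` has few values given `Y` -/
def Cr (Y X : ∀ k, Setoid (T.F k).Ω) : Prop := Few (T.chg Y 1 one_pos) X

theorem chg_n (Y : ∀ k, Setoid (T.F k).Ω) (k : ℕ) : ((T.chg Y 1 one_pos).F k).n = (T.F k).n := one_mul _

theorem Cr.gr {Y X : ∀ k, Setoid (T.F k).Ω} (h : Cr Y X) {C : ℝ} (hY : Gr T C Y) {ε : ℝ} (hε : 0 < ε) :
    Gr T (C + ε) X := by
  have h1 := h ε hε
  unfold Gr at h1 hY ⊢
  filter_upwards [h1, hY] with k h2 h3 ω hω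
  have h4 := nv_le_mul (T.F k) (X k) (Y k) ω (2 ^ (ε * (T.F k).n)) (fun ω' hω' => by
    have h5 := h2 ω' hω'
    rw [chg_n] at h5
    exact h5)
  have h5 : (2 : ℝ) ^ ((C + ε) * (T.F k).n) = 2 ^ (C * (T.F k).n) * 2 ^ (ε * (T.F k).n) := by
    rw [← Real.rpow_add (by norm_num : (0 : ℝ) < 2)]
    congr 1; ring
  rw [h5]
  exact h4.trans (mul_le_mul_of_nonneg_right (h3 ω hω) (by positivity))

theorem Cr.VB {Y X : ∀ k, Setoid (T.F k).Ω} (h : Cr Y X) (hY : T.VB Y) : T.VB X := by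
  obtain ⟨C, hC⟩ := hY
  exact (h.gr (C := C) hC one_pos).VB

theorem Cr.mono {Y X X' : ∀ k, Setoid (T.F k).Ω} (h : Cr Y X) (h' : LeS T X X') : Cr Y X' := by
  intro ε hε
  refine (h ε hε).mono ?_
  unfold LeS at h' ⊢
  filter_upwards [h'] with k hk ω ω' a b c d
  exact hk ω ω' a b (show (T.F k).Z ω ω' from c.2) d

/-- few cells in every cell of `Y` -/
theorem Cr_of_nv {Y X : ∀ k, Setoid (T.F k).Ω} (h : ∀ ε : ℝ, 0 < ε → ∀ᶠ k in UF, ∀ ω, (T.F k).μ ω ≠ 0 →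
    (nv ((T.chg Y 1 one_pos).F k) (X k) ω : ℝ) ≤ 2 ^ (ε * (T.F k).n)) : Cr Y X := by
  intro ε hε
  unfold Gr
  filter_upwards [h ε hε] with k hk ω hω
  rw [chg_n]
  exact hk ω hω

theorem Cr.nv {Y X : ∀ k, Setoid (T.F k).Ω} (h : Cr Y X) {ε : ℝ} (hε : 0 < ε) : ∀ᶠ k in UF, ∀ ω, (T.F k).μ ω ≠ 0 →
    (nv ((T.chg Y 1 one_pos).F k) (X k) ω : ℝ) ≤ 2 ^ (ε * (T.F k).n) := by
  have h1 := h ε hε
  unfold Gr at h1
  filter_upwards [h1] with k hk ω hω
  have h2 := hk ω hω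
  rw [chg_n] at h2
  exact h2

theorem Cr_of_few {Y G : ∀ k, Setoid (T.F k).Ω} (hG : Few T G) : Cr Y G := by
  apply Cr_of_nv
  intro ε hε
  have h1 := hG ε hε
  unfold Gr at h1
  filter_upwards [h1] with k hk ω hω
  refine le_trans ?_ (hk ω hω)
  have h2 : nvf (T.F k).μ (Quotient.mk (G k)) (Quotient.mk (Y k ⊓ (T.F k).Z)) ω ≤
      nvf (T.F k).μ (Quotient.mk (G k)) (Quotient.mk (T.F k).Z) ω := by
    apply nvf_le_of_rel
    intro ω₁ _ e
    exact Quotient.sound (show (T.F k).Z ω₁ ω from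
      (show (Y k ⊓ (T.F k).Z) ω₁ ω from Quotient.exact e).2)
  exact_mod_cast h2

theorem Cr_refl (Y : ∀ k, Setoid (T.F k).Ω) : Cr Y Y := by
  refine Few_card 1 _ (fun k ω _ => ?_)
  apply Pool.Agent.Helper40.EL.nvf_le_card _ _ _ _ 1 (fun _ => Quotient.mk _ ω)
  intro ω' _ e
  exact ⟨0, Quotient.sound (show (Y k) ω' ω from (show (Y k ⊓ (T.F k).Z) ω' ω from Quotient.exact e).1)⟩

theorem Cr_of_leS {Y X : ∀ k, Setoid (T.F k).Ω} (h : LeS T Y X) : Cr Y X := (Cr_refl Y).mono h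

theorem Cr_of_le {Y X : ∀ k, Setoid (T.F k).Ω} (h : ∀ k, Y k ≤ X k) : Cr Y X := Cr_of_leS (LeS_of_le h)

theorem Cr.inf {Y X X' : ∀ k, Setoid (T.F k).Ω} (h : Cr Y X) (h' : Cr Y X') : Cr Y (fun k => X k ⊓ X' k) :=
  Few.inf h h'

theorem Cr.trans {Y X W : ∀ k, Setoid (T.F k).Ω} (h : Cr Y X) (h' : Cr X W) : Cr Y W := by
  apply Cr_of_nv
  intro ε hε
  filter_upwards [h.nv (half_pos hε), h'.nv (half_pos hε)] with k h1 h2 ω hω
  have h3 := nv_le_mul ((T.F k).chg (Y k) 1 one_pos) (W k) (X k) ω (2 ^ (ε / 2 * (T.F k).n)) (fun ω' hω' => by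
    refine le_trans ?_ (h2 ω' hω')
    have h4 : nvf (T.F k).μ (Quotient.mk (W k)) (Quotient.mk (X k ⊓ (Y k ⊓ (T.F k).Z))) ω' ≤
        nvf (T.F k).μ (Quotient.mk (W k)) (Quotient.mk (X k ⊓ (T.F k).Z)) ω' := by
      apply nvf_le_of_rel
      intro ω₁ _ e
      have e' : (X k ⊓ (Y k ⊓ (T.F k).Z)) ω₁ ω' := Quotient.exact e
      exact Quotient.sound (show (X k ⊓ (T.F k).Z) ω₁ ω' from ⟨e'.1, e'.2.2⟩)
    exact_mod_cast h4)
  have h5 : (2 : ℝ) ^ (ε * (T.F k).n) = 2 ^ (ε / 2 * (T.F k).n) * 2 ^ (ε / 2 * (T.F k).n) := by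
    rw [← Real.rpow_add (by norm_num : (0 : ℝ) < 2)]
    congr 1; ring
  rw [h5]
  exact h3.trans (mul_le_mul_of_nonneg_right (h1 ω hω) (by positivity))

/-- few values cost nothing -/
theorem Few.kn0 {G : ∀ k, Setoid (T.F k).Ω} (hG : Few T G) (V : ∀ k, Setoid (T.F k).Ω) : Kn0 T G V := by
  unfold Kn0
  rw [Metric.tendsto_nhds]
  intro ε hε
  filter_upwards [(hG (ε / 2) (half_pos hε)).rt_le] with k hk
  rw [Real.dist_eq, sub_zero, abs_of_nonneg (T.rt_nonneg _ _ k)]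
  have h1 : T.rt G V k ≤ T.rt G T.tr k := T.rt_anti G T.tr V k le_top
  linarith

theorem Cr.kn0 {Y X : ∀ k, Setoid (T.F k).Ω} (h : Cr Y X) : Kn0 T X Y := by
  have h1 := Few.kn0 h (T.chg Y 1 one_pos).tr
  unfold Kn0 at h1 ⊢
  refine h1.congr fun k => ?_
  rw [chg_rt_tr Y 1 one_pos X k, div_one]

/-- `X` is admissible: coarser than `Y` up to few values, and known to `V` -/
def Adm (V Y X : ∀ k, Setoid (T.F k).Ω) : Prop := Cr Y X ∧ Kn0 T X V

theorem Adm.inf {V Y X X' : ∀ k, Setoid (T.F k).Ω} (h : Adm V Y X) (h' : Adm V Y X') :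
    Adm V Y (fun k => X k ⊓ X' k) := ⟨h.1.inf h'.1, h.2.inf h'.2⟩

/-- THE FINEST ADMISSIBLE PARTITION -/
theorem exists_sat1 (V Y : ∀ k, Setoid (T.F k).Ω) (hY : T.VB Y) :
    ∃ X : ∀ k, Setoid (T.F k).Ω, Adm V Y X ∧ ∀ X', Adm V Y X' → Kn0 T X' X := by
  set A : Set ℝ := {r | ∃ X : ∀ k, Setoid (T.F k).Ω, Adm V Y X ∧ ul (T.rt X T.tr) = r} with hA
  have ubX : ∀ X : ∀ k, Setoid (T.F k).Ω, Adm V Y X → UB (T.rt X T.tr) := fun X hX => (hX.1.VB hY).ub
  have hne : A.Nonempty := ⟨_, T.tr, ⟨Cr_of_le fun _ => le_top, Kn0_of_le fun _ => le_top⟩, rfl⟩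
  have hbd : BddAbove A := by
    obtain ⟨C, hC⟩ := hY
    refine ⟨C + 1, ?_⟩
    rintro r ⟨X, hX, rfl⟩
    exact ul_le_const (ubX X hX) (hX.1.gr (C := C) hC one_pos).rt_le
  set σ := sSup A with hσ
  have h1 : ∀ N : ℕ, ∃ X : ∀ k, Setoid (T.F k).Ω, Adm V Y X ∧ σ - 1 / ((N : ℝ) + 1) < ul (T.rt X T.tr) := by
    intro N
    have hpos : (0 : ℝ) < 1 / ((N : ℝ) + 1) := by positivity
    obtain ⟨r, ⟨X, hX, hr⟩, hlt⟩ := exists_lt_of_lt_csSup hne (show σ - 1 / ((N : ℝ) + 1) < sSup A by linarith)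
    exact ⟨X, hX, by rw [hr]; exact hlt⟩
  choose X hX1 hX2 using h1
  obtain ⟨J, hJ, hJG⟩ := Pool.Agent.Helper40.EL.dia
    (fun N k => T.rt (X N) V k ≤ 1 / ((N : ℝ) + 1) ∧ σ - 1 / ((N : ℝ) + 1) ≤ T.rt (X N) T.tr k ∧
      (∀ ω, (T.F k).μ ω ≠ 0 → (nv ((T.chg Y 1 one_pos).F k) (X N k) ω : ℝ) ≤
        2 ^ (1 / ((N : ℝ) + 1) * (T.F k).n))) (by
      intro N
      have hpos : (0 : ℝ) < 1 / ((N : ℝ) + 1) := by positivity
      have t1 : Tendsto (T.rt (X N) V) UF (𝓝 0) := (hX1 N).2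
      filter_upwards [t1.eventually (gt_mem_nhds hpos), (ul_tendsto (ubX _ (hX1 N))).eventually
        (lt_mem_nhds (hX2 N)), (hX1 N).1.nv hpos] with k h2 h3 h4 using ⟨h2.le, h3.le, h4⟩)
  have h0 : Tendsto (fun k => 1 / ((J k : ℝ) + 1)) UF (𝓝 0) :=
    tendsto_one_div_add_atTop_nhds_zero_nat.comp hJ
  set Z : ∀ k, Setoid (T.F k).Ω := fun k => X (J k) k with hZ
  have hZa : Adm V Y Z := by
    refine ⟨Cr_of_nv ?_, ?_⟩
    · intro ε hε
      filter_upwards [hJG, h0.eventually (gt_mem_nhds hε)] with k hk hε' ω hω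
      refine ((hk (J k) le_rfl).2.2 ω hω).trans ?_
      apply Real.rpow_le_rpow_of_exponent_le (by norm_num)
      exact mul_le_mul_of_nonneg_right hε'.le (T.F k).pos.le
    · refine tendsto_of_tendsto_of_tendsto_of_le_of_le' tendsto_const_nhds h0
        (Eventually.of_forall fun k => T.rt_nonneg _ _ k) ?_
      filter_upwards [hJG] with k hk
      exact (hk (J k) le_rfl).1
  have hZσ : σ ≤ ul (T.rt Z T.tr) := by
    have t1 : Tendsto (fun k => σ - 1 / ((J k : ℝ) + 1)) UF (𝓝 (σ - 0)) := h0.const_sub σ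
    rw [sub_zero] at t1
    refine le_of_tendsto_of_tendsto t1 (ul_tendsto (ubX Z hZa)) ?_
    filter_upwards [hJG] with k hk
    exact (hk (J k) le_rfl).2.1
  refine ⟨Z, hZa, fun X' hX' => ?_⟩
  have hj := hZa.inf hX'
  have h3 : ul (T.rt (fun k => Z k ⊓ X' k) T.tr) ≤ σ := le_csSup hbd ⟨_, hj, rfl⟩
  have e1 : T.rt (fun k => Z k ⊓ X' k) T.tr = fun k => T.rt Z T.tr k + T.rt X' Z k :=
    funext fun k => rt_chain_tr Z X' k
  have u1 : UB (T.rt X' Z) := UB_rt (⟨X', hX'.1.VB hY⟩ : T.Inf) Z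
  rw [e1, ul_add (ubX Z hZa) u1] at h3
  have h4 : 0 ≤ ul (T.rt X' Z) := const_le_ul u1 (Eventually.of_forall fun k => T.rt_nonneg _ _ k)
  have h5 : ul (T.rt X' Z) = 0 := by linarith
  have h6 := ul_tendsto u1
  rw [h5] at h6
  exact h6

open Classical in
/-- SATURATED LABELS: a finite ordered family of partitions `V i` (labels, finer for larger `i`), admissible partitions
`K0 i`; there is a literally nested family `K i` of admissible partitions, finer than `K0 i`, such that every admissible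
partition is known to `K i`. -/
theorem exists_sat {ι : Type} [Fintype ι] [Preorder ι] (V : ι → ∀ k, Setoid (T.F k).Ω)
    (hV : ∀ i j, i ≤ j → ∀ k, V j k ≤ V i k) (Y : ∀ k, Setoid (T.F k).Ω) (hY : T.VB Y)
    (K0 : ι → ∀ k, Setoid (T.F k).Ω) (hK0 : ∀ i, Adm (V i) Y (K0 i)) :
    ∃ K : ι → ∀ k, Setoid (T.F k).Ω, (∀ i, Adm (V i) Y (K i)) ∧ (∀ i j, i ≤ j → ∀ k, K j k ≤ K i k) ∧
      (∀ i k, K i k ≤ K0 i k) ∧ ∀ i X, Adm (V i) Y X → Kn0 T X (K i) := by
  choose X hX1 hX2 using fun i => exists_sat1 (V i) Y hY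
  set g : ι → ∀ k, Setoid (T.F k).Ω := fun i k => X i k ⊓ K0 i k with hg
  have hga : ∀ i, Adm (V i) Y (g i) := fun i => (hX1 i).inf (hK0 i)
  have hfin : ∀ (s : Finset ι) (i : ι), (∀ j ∈ s, j ≤ i) → Adm (V i) Y (fun k => s.inf (fun j => g j k)) := by
    intro s i
    induction s using Finset.induction_on with
    | empty =>
      intro _
      exact ⟨Cr_of_le fun k => le_top, Kn0_of_le fun k => le_top⟩
    | insert a s ha ih =>
      intro h
      have h1 := ih (fun j hj => h j (Finset.mem_insert_of_mem hj))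
      have h2 : Adm (V i) Y (g a) := ⟨(hga a).1, (hga a).2.mono_right (hV a i (h a (Finset.mem_insert_self a s)))⟩
      have h3 := h2.inf h1
      have e : (fun k => (insert a s).inf (fun j => g j k)) = fun k => g a k ⊓ s.inf (fun j => g j k) :=
        funext fun k => Finset.inf_insert
      rw [e]
      exact h3
  refine ⟨fun i k => (univ.filter (fun j => j ≤ i)).inf (fun j => g j k), ?_, ?_, ?_, ?_⟩
  · intro i
    exact hfin _ i (fun j hj => (Finset.mem_filter.mp hj).2)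
  · intro i j hij k
    apply Finset.inf_mono
    intro a ha
    rw [Finset.mem_filter] at ha ⊢
    exact ⟨ha.1, ha.2.trans hij⟩
  · intro i k
    have h1 : (univ.filter (fun j => j ≤ i)).inf (fun j => g j k) ≤ g i k :=
      Finset.inf_le (Finset.mem_filter.mpr ⟨Finset.mem_univ _, le_rfl⟩)
    exact h1.trans inf_le_right
  · intro i X' hX'
    refine (hX2 i X' hX').mono_right (fun k => ?_)
    have h1 : (univ.filter (fun j => j ≤ i)).inf (fun j => g j k) ≤ g i k :=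
      Finset.inf_le (Finset.mem_filter.mpr ⟨Finset.mem_univ _, le_rfl⟩)
    exact h1.trans inf_le_left

end

end Pool.Agent.Helper71.AGR
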