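import Pool.Agent.Helper71.AGR.Lvl
import Pool.Agent.Helper31.NSB.St

/-! The agreement principle of the corner (helper31, NSB/St: `Agr`) from the finite form. -/

set_option autoImplicit false

namespace Pool.Agent.Helper71.AGR

open Finset Filter Topology Pool.Agent.Helper69.RK Pool.Agent.Helper31.EC Pool.Agent.Helper31.EC.Sp
open Pool.Agent.Helper82.TP Pool.Agent.Helper79.NF Pool.Agent.Helper31.NSB Pool.Agent.Helper99.EC QS

noncomputable section

/-- an event of an event -/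
theorem pb_and_eq (F : FSp) (E B : F.Ω → Prop) : F.pb (fun ω => E ω ∧ B ω) = F.pb E * (F.rest E).pb B := by
  by_cases h : F.pb E = 0
  · rw [h, zero_mul]
    have h1 := F.pb_mono (E := fun ω => E ω ∧ B ω) (E' := E) (fun ω _ g => g.1)
    rw [h] at h1
    exact le_antisymm h1 (F.pb_nonneg _)
  · have e : (F.rest E).pb B = mass (res (F.restμ E) B) := rfl
    rw [e, F.restμ_eq E h]
    unfold FSp.pb mass
    rw [Finset.mul_sum]
    apply Finset.sum_congr rfl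
    intro ω _
    have h' : (∑ ω, res F.μ E ω) ≠ 0 := h
    by_cases hB : B ω
    · rw [res_pos _ B ω hB]
      by_cases hE : E ω
      · rw [res_pos _ (fun ω => E ω ∧ B ω) ω ⟨hE, hB⟩]
        show F.μ ω = (∑ ω, res F.μ E ω) * ((∑ ω, res F.μ E ω)⁻¹ * res F.μ E ω)
        rw [res_pos _ E ω hE, ← mul_assoc, mul_inv_cancel₀ h', one_mul]
      · rw [res_neg _ (fun ω => E ω ∧ B ω) ω (fun g => hE g.1)]
        show 0 = (∑ ω, res F.μ E ω) * ((∑ ω, res F.μ E ω)⁻¹ * res F.μ E ω)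
        rw [res_neg _ E ω hE, mul_zero, mul_zero]
    · rw [res_neg _ B ω hB, res_neg _ (fun ω => E ω ∧ B ω) ω (fun g => hB g.2), mul_zero]

theorem pr_and {S : Sp} (E E' : ∀ k, (S.F k).Ω → Prop) (hE' : Typ (S := S.rest E) E') :
    ul (S.pr fun k ω => E k ω ∧ E' k ω) = ul (S.pr E) := by
  have e : (S.pr fun k ω => E k ω ∧ E' k ω) = fun k => S.pr E k * (S.rest E).pr E' k :=
    funext fun k => pb_and_eq (S.F k) (E k) (E' k)
  rw [e]
  have h1 := (ul_tendsto (UB_pr E)).mul ((Typ_iff (S := S.rest E) E').mp hE')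
  rw [mul_one] at h1
  exact ul_eq h1

/-- THE AGREEMENT PRINCIPLE -/
theorem agr_top {S : Sp} (H : RD S) (s s' : ℝ) (hK : Bdd (H.K s)) (hVB : Bdd (fun k ω => (H.VB k ω, H.K s' k ω)))
    (h : ∀ ε η : ℝ, 0 < ε → 0 < η → ∀ᶠ k in UF, AgrF (Fin 1) (S.F k) (Setoid.ker fun ω => (H.VA k ω, H.K s k ω))
      (Setoid.ker fun ω => (H.VB k ω, H.K s' k ω)) (Setoid.ker (H.K s k)) ε η) : Agr H s s' := by
  intro E hE gA gB δ h0 h1 hA hB hcl
  obtain ⟨fA, rfl, hA'⟩ := hA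
  obtain ⟨fB, rfl, hB'⟩ := hB
  have hcl' : QS.rest E hE (mk (fA - fB)) ∈ Id (S.rest E) δ := by
    rw [map_sub]; exact hcl
  rw [QS.rest_mk, mk_mem_Id h1] at hcl'
  obtain ⟨E', C, hE', hC, hh⟩ := hcl'
  have hpr := pr_and E E' hE'
  obtain ⟨E₂, hE₂⟩ : ∃ E₂ : ∀ k, (S.F k).Ω → Prop, E₂ = fun k ω => E k ω ∧ E' k ω := ⟨_, rfl⟩
  have hpr2 : 0 < ul (S.pr E₂) := by rw [hE₂, hpr]; exact hE
  obtain ⟨ρ, hρ⟩ : ∃ ρ : ℕ → ℝ, ρ = fun k => (|C k| + 1) * S.dl δ k := ⟨_, rfl⟩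
  have hρ0 : ∀ k, 0 < ρ k := fun k => by
    rw [hρ]; exact mul_pos (by positivity) (S.dl_pos δ k)
  obtain ⟨W, hW⟩ : ∃ W : ∀ k, Setoid (S.F k).Ω,
      W = fun k => Setoid.ker fun ω => rdv (ρ k) (fun _ : Fin 1 => TR.ev fB k ω) := ⟨_, rfl⟩
  have k1 : Kn0 (S.rest E₂) W (fun k => Setoid.ker (H.K s k)) := by
    rw [hW]
    refine of_agrF (fun k => Setoid.ker fun ω => (H.VA k ω, H.K s k ω))
      (fun k => Setoid.ker fun ω => (H.VB k ω, H.K s' k ω)) (fun k => Setoid.ker (H.K s k)) h E₂ hpr2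
      (fun k ω _ => TR.ev fA k ω) (fun k ω _ => TR.ev fB k ω) ρ hρ0 ?_ ?_ ?_
    · unfold LeS
      filter_upwards [hA'] with k hk ω ω' a b c d
      exact funext fun _ => hk ω ω' a b c d
    · unfold LeS
      filter_upwards [hB'] with k hk ω ω' a b c d
      exact funext fun _ => hk ω ω' a b c d
    · filter_upwards [hh] with k hk ω a b _
      rw [hE₂] at b
      have h2 := hk ω ((S.F k).rest_supp' (E k) ω a b.1) b.2
      have h3 : |TR.ev fA k ω - TR.ev fB k ω - 0| ≤ C k * S.dl δ k := h2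
      rw [sub_zero] at h3
      refine h3.trans ?_
      rw [hρ]
      exact mul_le_mul_of_nonneg_right ((le_abs_self _).trans (by linarith)) (S.dl_pos δ k).le
  have k2 : LeS S (fun k => Setoid.ker fun ω => (H.VB k ω, H.K s' k ω)) W := by
    unfold LeS
    filter_upwards [hB'] with k hk ω ω' a b c d
    rw [hW]
    show rdv (ρ k) (fun _ : Fin 1 => TR.ev fB k ω) = rdv (ρ k) (fun _ : Fin 1 => TR.ev fB k ω')
    rw [hk ω ω' a b c d]
  have k3 : S.VB (star E₂ W) := (Cr_star E₂ (Cr_of_leS k2)).VB hVB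
  have k4 : Kn0 S (star E₂ W) (fun k => Setoid.ker (H.K s k)) := kn0_star_of_rest E₂ k1
  have k5 : cl (⟨star E₂ W, k3⟩ : S.Inf) ≤ io (H.K s) := by
    rw [io_eq hK]
    exact le_iff_kn0.mpr k4
  have k6 := restL_mono E hE k5
  refine le_trans ?_ k6
  rw [← QS.rest_dg, QS.rest_mk, dg_mk _ h1, restL_cl]
  refine TR.dg_le_cl (TR.rest E fB) δ (restI E ⟨star E₂ W, k3⟩) E' hE' (fun k => |C k| + 1) ?_ ?_
  · have hC1 := hC.add ((S.rest E).Sub_const zero_le_one)
    refine ⟨Eventually.of_forall fun k => by positivity, hC1.2.congr' ?_⟩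
    filter_upwards [hC.1] with k hk
    rw [abs_of_nonneg hk]
  · filter_upwards [Pool.Agent.Helper40.EL.pr_half' hE] with k hk2 ω ω' a b e e' _ g
    have hk3 : (S.F k).pb (E k) ≠ 0 := (lt_of_lt_of_le (half_pos hE) hk2).ne'
    have a' := ((S.F k).rest_supp (E k) ω a).2 hk3
    have b' := ((S.F k).rest_supp (E k) ω' b).2 hk3
    rcases g with g | g
    · have g3 : rdv (ρ k) (fun _ : Fin 1 => TR.ev fB k ω) = rdv (ρ k) (fun _ : Fin 1 => TR.ev fB k ω') := by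
        have := g.2.2
        rw [hW] at this
        exact this
      have g4 : (⌊TR.ev fB k ω / ρ k⌋ : ℤ) = ⌊TR.ev fB k ω' / ρ k⌋ := congrFun g3 0
      have g5 := Int.abs_sub_lt_one_of_floor_eq_floor g4
      rw [← sub_div, abs_div, abs_of_pos (hρ0 k), div_lt_one (hρ0 k)] at g5
      show |TR.ev fB k ω - TR.ev fB k ω'| ≤ (|C k| + 1) * S.dl δ k
      rw [hρ] at g5
      exact g5.le
    · exfalso
      apply g.1
      rw [hE₂]
      exact ⟨a', e⟩

end

end Pool.Agent.Helper71.AGR
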